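import Pool.Agent.H48.CR.Sound

namespace PoolH48.CR

open List (replicate)

/-- sizes of blocks -/
def Sz (lo hi : ℕ) (bs : List Blk) : Prop := ∀ b ∈ bs, lo ≤ b.1 ∧ b.1 < hi

/-- the last carry is off -/
def LC : Bool → List Blk → Prop
  | c, [] => c = false
  | _, (_, _, c') :: bs => LC c' bs

/-- The forward invariant. -/
def Fw : Sy → List Tok → List Tok → Prop
  | .s, U, V => ∃ κ k n σ c bs, U = replicate k none ∧ V = encB ((n, σ, c) :: bs) ∧ 1 ≤ n ∧
      Ch (n + 2 * k) c bs ∧ 4 ^ κ ≤ n + 2 * k ∧ n + 2 * k < 2 * 4 ^ κ ∧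
      Sz (4 ^ κ) (2 * 4 ^ κ) bs ∧ bs ≠ [] ∧ (κ = 0 → LC c bs) ∧ run [] (σ :: sg bs) = some []
  | .q e, U, V => ∃ κ k rb n σ c bs, U = replicate k none ++ revenc rb ∧
      V = encB ((n, σ, c) :: bs) ∧ 1 ≤ n ∧ n % 2 = e.toNat ∧ RC (n / 2 + k) rb ∧
      Ch (n + 2 * k) c bs ∧ 4 * 4 ^ κ ≤ n + 2 * k ∧ n + 2 * k < 8 * 4 ^ κ ∧
      Sz (4 * 4 ^ κ) (8 * 4 ^ κ) bs ∧ Sz (2 * 4 ^ κ) (4 * 4 ^ κ) rb ∧ rb ≠ [] ∧
      run [] ((sg rb).reverse ++ σ :: sg bs) = some []
  | .p z, U, V => ∃ κ m rb k σ c bs, U = replicate m none ++ revenc rb ∧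
      V = encB ((k, σ, c) :: bs) ∧ 1 ≤ m ∧ (∀ e, z = some e → m % 2 = e.toNat) ∧
      RC (m + 2 * k) rb ∧ Ch (m / 2 + k) c bs ∧ 2 * 4 ^ κ ≤ m + 2 * k ∧ m + 2 * k < 4 * 4 ^ κ ∧
      Sz (4 ^ κ) (2 * 4 ^ κ) bs ∧ Sz (2 * 4 ^ κ) (4 * 4 ^ κ) rb ∧ (rb ≠ [] ∨ bs ≠ []) ∧
      LC c bs ∧ run [] ((sg rb).reverse ++ σ :: sg bs) = some []
  | .f, U, V => ∃ (st : List Bool) (ds : List (Bool × Bool)),
      U = st.map (fun x => some ((true, x), false)) ∧
      V = encB (ds.map (fun d => (1, d, false))) ∧ run st ds = some []
  | _, _, _ => False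

theorem enc1 (n σ c bs) : encB ((n + 1, σ, c) :: bs) = none :: encB ((n, σ, c) :: bs) := by
  simp [encB, List.replicate_succ]

theorem enc0 (σ c bs) : encB ((0, σ, c) :: bs) = some (σ, c) :: encB bs := by
  simp [encB]

theorem rep1 (n : ℕ) (W : List Tok) : replicate (n + 1) none ++ W = none :: (replicate n none ++ W) := by
  simp [List.replicate_succ]

theorem rep1' (n : ℕ) : replicate (n + 1) (none : Tok) = none :: (replicate n none) := by
  simp [List.replicate_succ]

theorem base_blocks {c : Bool} {bs : List Blk} (h1 : Ch 1 c bs) (h2 : Sz 1 2 bs) (h3 : LC c bs) :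
    c = false ∧ bs = (sg bs).map (fun d => (1, d, false)) := by
  induction bs generalizing c with
  | nil => exact ⟨h3, rfl⟩
  | cons b bs ih =>
    obtain ⟨n, σ, c'⟩ := b
    have h4 := h2 (n, σ, c') (by simp)
    simp only at h4
    obtain rfl : n = 1 := by omega
    simp only [Ch] at h1
    have hc : c = false := by
      cases c
      · rfl
      · simp at h1
    obtain ⟨rfl, h6⟩ := ih h1.2 (fun b hb => h2 b (by simp [hb])) h3
    refine ⟨hc, ?_⟩
    rw [show sg ((1, σ, false) :: bs) = σ :: sg bs from rfl, List.map_cons, ← h6]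

theorem progress {h U V} (H : Fw h U V) :
    (h = .f ∧ U = [] ∧ V = []) ∨ ∃ h' U' V', M h U V h' U' V' ∧ Fw h' U' V' := by
  cases h
  case s =>
    obtain ⟨κ, k, n, σ, c, bs, rfl, rfl, h1, h2, h3, h4, h5, h6, h7, h8⟩ := H
    right
    have hP : 0 < 4 ^ κ := by positivity
    obtain ⟨⟨n2, σ2, c2⟩, bs, rfl⟩ := List.exists_cons_of_ne_nil h6
    have h9 := h5 (n2, σ2, c2) (by simp)
    simp only at h9
    simp only [Ch] at h2
    obtain ⟨n2, rfl⟩ : ∃ n', n2 = n' + 1 := ⟨n2 - 1, by omega⟩
    rcases n with _ | _ | _ | n
    · omega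
    · -- n = 1
      rcases κ with _ | κ
      · obtain rfl : k = 0 := by simp at h4; omega
        have h10 := base_blocks (c := c) (bs := (n2 + 1, σ2, c2) :: bs) (by simpa [Ch] using h2)
          (by simpa using h5) (h7 rfl)
        obtain ⟨rfl, h10⟩ := h10
        obtain ⟨o, x⟩ := σ
        cases o
        · simp [run] at h8
        rw [enc1, enc0]
        refine ⟨_, _, _, M.s4 _ x, [x], sg ((n2 + 1, σ2, c2) :: bs), by simp, ?_, ?_⟩
        · rw [← h10]
        · simpa [run] using h8
      · rw [pow_succ] at h3 h4 h5 h9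
        have hP : 0 < 4 ^ κ := by positivity
        obtain ⟨k, rfl⟩ : ∃ k', k = k' + 1 := ⟨k - 1, by omega⟩
        rw [enc1, enc0, enc1, rep1']
        refine ⟨_, _, _, M.s3 _ _ σ c, κ, 0, [(k + 1, σ, c)], n2 + 1, σ2, c2, bs, ?_, ?_, ?_, ?_,
          ?_, ?_, ?_, ?_, ?_, ?_, ?_, ?_⟩
        · simp [revenc, List.replicate_succ]
        · rw [enc1]
        · omega
        · cases c <;> simp at h2 ⊢ <;> omega
        · cases c <;> simp [RC] at h2 ⊢ <;> omega
        · simpa using h2.2
        · omega
        · omega
        · intro b hb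
          have := h5 b (by simp [hb])
          omega
        · intro b hb
          simp at hb
          subst hb
          simp only
          omega
        · simp
        · simpa [sg] using h8
    · -- n = 2
      rcases κ with _ | κ
      · simp at h4; omega
      rw [pow_succ] at h3 h4 h5 h9
      rw [enc1, enc1, enc0, enc1]
      refine ⟨_, _, _, M.s2 _ _ σ c, κ, 0, [(k + 1, σ, false)], n2 + 1, σ2, c2, bs, ?_, ?_, ?_, ?_,
          ?_, ?_, ?_, ?_, ?_, ?_, ?_, ?_⟩
      · simp [revenc, List.replicate_succ]
      · rw [enc1]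
      · omega
      · cases c <;> simp at h2 ⊢ <;> omega
      · cases c <;> simp [RC] at h2 ⊢ <;> omega
      · simpa using h2.2
      · omega
      · omega
      · intro b hb
        have := h5 b (by simp [hb])
        omega
      · intro b hb
        simp at hb
        subst hb
        simp only
        omega
      · simp
      · simpa [sg] using h8
    · -- n = n + 3
      rw [enc1, enc1, enc1]
      refine ⟨_, _, _, M.s1 _ _, κ, k + 1, n + 1, σ, c, (n2 + 1, σ2, c2) :: bs, ?_, ?_, ?_, ?_,
        ?_, ?_, h5, ?_, h7, h8⟩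
      · rw [rep1']
      · rw [enc1]
      · omega
      · simp only [Ch]
        refine ⟨?_, h2.2⟩
        rw [h2.1]; ring
      · omega
      · omega
      · simp
  case q e =>
    obtain ⟨κ, k, rb, n, σ, c, bs, rfl, rfl, h1, h1e, h1r, h2, h3, h4, h5, h5r, h6, h8⟩ := H
    right
    have hP : 0 < 4 ^ κ := by positivity
    rcases n with _ | _ | _ | n
    · omega
    · -- n = 1
      obtain rfl : e = true := by cases e <;> simp at h1e ⊢
      rcases bs with _ | ⟨⟨n2, σ2, c2⟩, bs⟩
      · rw [enc1, enc0]
        refine ⟨_, _, _, M.q3e _ σ c, κ, k, rb, 0, σ, false, [], ?_, ?_, ?_, ?_,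
          ?_, ?_, ?_, ?_, ?_, h5r, Or.inl h6, ?_, ?_⟩
        · rfl
        · rw [enc0]; rfl
        · omega
        · simp
        · simpa using h1r
        · trivial
        · omega
        · omega
        · intro b hb; simp at hb
        · rfl
        · simpa [sg] using h8
      · have h9 := h5 (n2, σ2, c2) (by simp)
        simp only at h9
        simp only [Ch] at h2
        obtain ⟨n2, rfl⟩ : ∃ n', n2 = n' + 1 := ⟨n2 - 1, by omega⟩
        rw [enc1, enc0, enc1]
        refine ⟨_, _, _, M.q3 _ _ σ c, κ, 0, (k, σ, c) :: rb, n2 + 1, σ2, c2, bs, ?_, ?_, ?_, ?_,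
          ?_, ?_, ?_, ?_, ?_, ?_, ?_, ?_⟩
        · simp [revenc]
        · rw [enc1]
        · omega
        · cases c <;> simp at h2 ⊢ <;> omega
        · refine ⟨?_, by simpa using h1r⟩
          cases c <;> simp at h2 ⊢ <;> omega
        · simpa using h2.2
        · omega
        · omega
        · intro b hb
          exact h5 b (by simp [hb])
        · intro b hb
          simp only [List.mem_cons] at hb
          rcases hb with rfl | hb
          · simp only
            omega
          · exact h5r b hb
        · simp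
        · simpa [sg] using h8
    · -- n = 2
      obtain rfl : e = false := by cases e <;> simp at h1e ⊢
      rcases bs with _ | ⟨⟨n2, σ2, c2⟩, bs⟩
      · rw [enc1, enc1, enc0]
        refine ⟨_, _, _, M.q2e _ σ c, κ, k + 1, rb, 0, σ, false, [], ?_, ?_, ?_, ?_,
          ?_, ?_, ?_, ?_, ?_, h5r, Or.inl h6, ?_, ?_⟩
        · rw [rep1]
        · rw [enc0]; rfl
        · omega
        · simp
        · convert h1r using 1; omega
        · trivial
        · omega
        · omega
        · intro b hb; simp at hb
        · rfl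
        · simpa [sg] using h8
      · have h9 := h5 (n2, σ2, c2) (by simp)
        simp only at h9
        simp only [Ch] at h2
        obtain ⟨n2, rfl⟩ : ∃ n', n2 = n' + 1 := ⟨n2 - 1, by omega⟩
        rw [enc1, enc1, enc0, enc1]
        refine ⟨_, _, _, M.q2 _ _ σ c, κ, 0, (k + 1, σ, false) :: rb, n2 + 1, σ2, c2, bs, ?_, ?_,
          ?_, ?_, ?_, ?_, ?_, ?_, ?_, ?_, ?_, ?_⟩
        · simp [revenc, List.replicate_succ]
        · rw [enc1]
        · omega
        · cases c <;> simp at h2 ⊢ <;> omega
        · refine ⟨?_, ?_⟩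
          · cases c <;> simp at h2 ⊢ <;> omega
          · convert h1r using 1; omega
        · simpa using h2.2
        · omega
        · omega
        · intro b hb
          exact h5 b (by simp [hb])
        · intro b hb
          simp only [List.mem_cons] at hb
          rcases hb with rfl | hb
          · simp only
            omega
          · exact h5r b hb
        · simp
        · simpa [sg] using h8
    · rw [enc1, enc1, enc1]
      refine ⟨_, _, _, M.q1 _ _ e, κ, k + 1, rb, n + 1, σ, c, bs, ?_, ?_, ?_, ?_,
        ?_, ?_, ?_, ?_, h5, h5r, h6, h8⟩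
      · rw [rep1]
      · rw [enc1]
      · omega
      · omega
      · convert h1r using 1; omega
      · convert h2 using 1; ring
      · omega
      · omega
  case p z =>
    obtain ⟨κ, m, rb, k, σ, c, bs, rfl, rfl, h1, h1e, h1r, h2, h3, h4, h5, h5r, h6, h7, h8⟩ := H
    right
    have hP : 0 < 4 ^ κ := by positivity
    rcases m with _ | _ | _ | m
    · omega
    · -- m = 1
      have hz : z ≠ some false := by
        rintro rfl
        simpa using h1e false rfl
      rcases rb with _ | ⟨⟨n', σ', c'⟩, rb⟩
      · simp only [revenc, List.append_nil]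
        have hbs : bs ≠ [] := by
          rcases h6 with h6 | h6
          · exact absurd rfl h6
          · exact h6
        refine ⟨_, _, _, M.p5 _ _ hz, κ, 0, k, σ, c, bs, rfl, rfl, ?_, ?_, ?_, ?_, h5, hbs,
          fun _ => h7, ?_⟩
        · omega
        · convert h2 using 1; omega
        · omega
        · omega
        · simpa [sg] using h8
      · have h9 := h5r (n', σ', c') (by simp)
        simp only at h9
        simp only [RC] at h1r
        obtain ⟨n', rfl⟩ : ∃ n'', n' = n'' + 1 := ⟨n' - 1, by omega⟩
        rw [rep1, revenc, rep1]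
        simp only [List.replicate_zero, List.nil_append]
        refine ⟨_, _, _, M.p3 _ _ z σ' c' hz, κ, n' + 1, rb, 0, σ', false, (k, σ, c) :: bs,
          ?_, ?_, ?_, ?_, ?_, ?_, ?_, ?_, ?_, ?_, ?_, ?_, ?_⟩
        · rw [rep1]
        · rw [enc0]
        · omega
        · intro e he
          simp only [Option.some.injEq] at he
          subst he
          cases c' <;> simp at h1r ⊢ <;> omega
        · simpa using h1r.2
        · refine ⟨?_, ?_⟩
          · cases c' <;> simp at h1r ⊢ <;> omega
          · convert h2 using 1; omega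
        · omega
        · omega
        · intro b hb
          simp only [List.mem_cons] at hb
          rcases hb with rfl | hb
          · simp only
            omega
          · exact h5 b hb
        · intro b hb
          exact h5r b (by simp [hb])
        · right; simp
        · exact h7
        · simpa [sg] using h8
    · -- m = 2
      have hz : z ≠ some true := by
        rintro rfl
        simpa using h1e true rfl
      rcases rb with _ | ⟨⟨n', σ', c'⟩, rb⟩
      · simp only [revenc, List.append_nil]
        have hbs : bs ≠ [] := by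
          rcases h6 with h6 | h6
          · exact absurd rfl h6
          · exact h6
        refine ⟨_, _, _, M.p4 _ _ hz, κ, 0, k + 1, σ, c, bs, rfl, ?_, ?_, ?_, ?_, ?_, h5, hbs,
          fun _ => h7, ?_⟩
        · rw [enc1]
        · omega
        · convert h2 using 1; omega
        · omega
        · omega
        · simpa [sg] using h8
      · have h9 := h5r (n', σ', c') (by simp)
        simp only at h9
        simp only [RC] at h1r
        obtain ⟨n', rfl⟩ : ∃ n'', n' = n'' + 1 := ⟨n' - 1, by omega⟩
        rw [rep1, rep1, revenc, rep1]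
        simp only [List.replicate_zero, List.nil_append]
        refine ⟨_, _, _, M.p2 _ _ z σ' c' hz, κ, n' + 1, rb, 0, σ', c', (k + 1, σ, c) :: bs,
          ?_, ?_, ?_, ?_, ?_, ?_, ?_, ?_, ?_, ?_, ?_, ?_, ?_⟩
        · rw [rep1]
        · rw [enc0, enc1]
        · omega
        · intro e he
          simp only [Option.some.injEq] at he
          subst he
          cases c' <;> simp at h1r ⊢ <;> omega
        · simpa using h1r.2
        · refine ⟨?_, ?_⟩
          · cases c' <;> simp at h1r ⊢ <;> omega
          · convert h2 using 1; omega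
        · omega
        · omega
        · intro b hb
          simp only [List.mem_cons] at hb
          rcases hb with rfl | hb
          · simp only
            omega
          · exact h5 b hb
        · intro b hb
          exact h5r b (by simp [hb])
        · right; simp
        · exact h7
        · simpa [sg] using h8
    · rw [rep1, rep1, rep1]
      refine ⟨_, _, _, M.p1 _ _ z, κ, m + 1, rb, k + 1, σ, c, bs, ?_, ?_, ?_, ?_,
        ?_, ?_, ?_, ?_, h5, h5r, h6, h7, h8⟩
      · rw [rep1]
      · rw [enc1]
      · omega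
      · intro e he
        have := h1e e he
        omega
      · convert h1r using 1; ring
      · convert h2 using 1; omega
      · omega
      · omega
  case f =>
    obtain ⟨st, ds, rfl, rfl, h⟩ := H
    rcases ds with _ | ⟨⟨o, x⟩, ds⟩
    · simp only [run, Option.some.injEq] at h
      subst h
      exact Or.inl ⟨rfl, rfl, rfl⟩
    · right
      cases o
      · rcases st with _ | ⟨y, st⟩
        · simp [run] at h
        · simp only [run] at h
          split_ifs at h with hxy
          subst hxy
          simp only [List.map_cons]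
          rw [enc1, enc0]
          exact ⟨_, _, _, M.f2 _ _ x, st, ds, rfl, rfl, h⟩
      · simp only [run] at h
        rw [List.map_cons, enc1, enc0]
        exact ⟨_, _, _, M.f1 _ _ x, x :: st, ds, rfl, rfl, h⟩
  all_goals exact absurd H (by simp [Fw])

theorem M_len {h U V h' U' V'} (H : M h U V h' U' V') :
    U'.length + V'.length < U.length + V.length := by
  cases H <;> simp <;> omega

theorem acc_of_fw {h U V} (H : Fw h U V) : Acc h U V := by
  generalize hn : U.length + V.length = n
  induction n using Nat.strong_induction_on generalizing h U V with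
  | _ n ih =>
    rcases progress H with ⟨rfl, rfl, rfl⟩ | ⟨h', U', V', hM, hF⟩
    · exact .fin
    · exact .step hM (ih _ (by have := M_len hM; omega) hF rfl)

end PoolH48.CR
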