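import Mathlib

/-! Symbols, rules and the zipper dynamics of the string rewriting system. -/

namespace PoolH48.CR

/-- Symbols of the rewriting system. -/
inductive Sy : Type
  | a
  | sp (σ : Bool × Bool) (c : Bool)
  | rend
  | ba
  | bsp (σ : Bool × Bool) (c : Bool)
  | lend
  | s
  | q (e : Bool)
  | p (z : Option Bool)
  | f
  | Y
deriving DecidableEq, Fintype

/-- `Rule u h v r`: the rewriting rule `u.reverse ++ h :: v → r`. -/
inductive Rule : List Sy → Sy → List Sy → List Sy → Prop
  | s1 : Rule [] .s [.a, .a, .a] [.ba, .s, .a]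
  | s2 (σ c) : Rule [] .s [.a, .a, .sp σ c, .a] [.ba, .bsp σ false, .q c, .a]
  | s3 (σ c) : Rule [.ba] .s [.a, .sp σ c, .a] [.ba, .bsp σ c, .q (!c), .a]
  | s4 (x) : Rule [.lend] .s [.a, .sp (true, x) false] [.lend, .bsp (true, x) false, .f]
  | q1 (e) : Rule [] (.q e) [.a, .a, .a] [.ba, .q e, .a]
  | q2 (σ c) : Rule [] (.q false) [.a, .a, .sp σ c, .a] [.ba, .bsp σ false, .q c, .a]
  | q2e (σ c) : Rule [] (.q false) [.a, .a, .sp σ c, .rend] [.ba, .p none, .sp σ false, .rend]
  | q3 (σ c) : Rule [] (.q true) [.a, .sp σ c, .a] [.bsp σ c, .q (!c), .a]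
  | q3e (σ c) : Rule [] (.q true) [.a, .sp σ c, .rend] [.p none, .sp σ false, .rend]
  | p1 (z) : Rule [.ba, .ba, .ba] (.p z) [] [.ba, .p z, .a]
  | p2 (z σ c) (h : z ≠ some true) :
      Rule [.ba, .ba, .bsp σ c, .ba] (.p z) [] [.ba, .p (some c), .sp σ c, .a]
  | p3 (z σ c) (h : z ≠ some false) :
      Rule [.ba, .bsp σ c, .ba] (.p z) [] [.ba, .p (some !c), .sp σ false]
  | p4 (z) (h : z ≠ some true) : Rule [.ba, .ba, .lend] (.p z) [] [.lend, .s, .a]
  | p5 (z) (h : z ≠ some false) : Rule [.ba, .lend] (.p z) [] [.lend, .s]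
  | f1 (x) : Rule [] .f [.a, .sp (true, x) false] [.bsp (true, x) false, .f]
  | f2 (x) : Rule [.bsp (true, x) false] .f [.a, .sp (false, x) false] [.f]
  | f3 : Rule [.lend] .f [.rend] [.Y]

/-- The set of rules as pairs of words. -/
def rules : Set (List Sy × List Sy) :=
  {w | ∃ u h v, Rule u h v w.2 ∧ w.1 = u.reverse ++ h :: v}

theorem rule_len {u h v r} (H : Rule u h v r) : r.length < u.length + 1 + v.length := by
  cases H <;> simp

theorem rule_len5 {u h v r} (H : Rule u h v r) : u.length + 1 + v.length ≤ 5 := by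
  cases H <;> simp

theorem rule_len3 {u h v r} (H : Rule u h v r) : 3 ≤ u.length + 1 + v.length := by
  cases H <;> simp

theorem rules_finite : rules.Finite := by
  have h1 : ({l : List Sy | l.length ≤ 5} ×ˢ {l : List Sy | l.length ≤ 5}).Finite :=
    (List.finite_length_le Sy 5).prod (List.finite_length_le Sy 5)
  refine h1.subset ?_
  rintro ⟨l, r⟩ ⟨u, h, v, H, e⟩
  have h2 := rule_len H
  have h3 := rule_len5 H
  simp only at e h2
  subst e
  simp only [Set.mem_prod, Set.mem_ofPred_eq, List.length_append, List.length_reverse,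
    List.length_cons]
  omega

/-- left letters -/
def isL : Sy → Bool
  | .ba => true
  | .bsp _ _ => true
  | .lend => true
  | _ => false

/-- right letters -/
def isR : Sy → Bool
  | .a => true
  | .sp _ _ => true
  | .rend => true
  | _ => false

theorem rule_types {u h v r} (H : Rule u h v r) :
    (∀ x ∈ u, isL x = true ∧ isR x = false) ∧ (∀ x ∈ v, isR x = true ∧ isL x = false) ∧
      isL h = false ∧ isR h = false := by
  cases H <;> simp [isL, isR]

/-- determinism -/
theorem rule_det {u h v r u' v' r'} (H : Rule u h v r) (H' : Rule u' h v' r')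
    {A A' B B' : List Sy} (e1 : u ++ A = u' ++ A') (e2 : v ++ B = v' ++ B') :
    u = u' ∧ v = v' ∧ r = r' := by
  cases H <;> cases H' <;> simp_all

end PoolH48.CR
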