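import Pool.Agent.H48.CR.Defs
import Pool.Agent.H48.CR.Sys

namespace PoolH48.CR

theorem rew_iff {x y : List Sy} : Rew rules x y ↔
    ∃ A B u h v r, Rule u h v r ∧ x = A ++ (u.reverse ++ h :: v) ++ B ∧ y = A ++ r ++ B := by
  constructor
  · rintro ⟨A, B, l, r, ⟨u, h, v, H, e⟩, e1, e2⟩
    simp only at e
    subst e
    exact ⟨A, B, u, h, v, r, H, e1, e2⟩
  · rintro ⟨A, B, u, h, v, r, H, e1, e2⟩
    exact ⟨A, B, _, r, ⟨u, h, v, H, rfl⟩, e1, e2⟩

/-- Disjointness of occurrences with different head positions. -/
theorem occ_disjoint {A B A' B' u v u' v' : List Sy} {h h' : Sy} {m : List Sy}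
    (hv : ∀ x ∈ v, isR x = true ∧ isL x = false) (hu' : ∀ x ∈ u', isL x = true ∧ isR x = false)
    (hh : isL h = false) (hh' : isR h' = false)
    (e1 : A' ++ u'.reverse = A ++ u.reverse ++ h :: m)
    (e2 : v ++ B = m ++ h' :: (v' ++ B')) :
    ∃ m', A' = A ++ u.reverse ++ h :: v ++ m' ∧ B = m' ++ u'.reverse ++ h' :: (v' ++ B') := by
  have key : ∃ c, m = v ++ c ∧ B = c ++ h' :: (v' ++ B') := by
    rcases List.append_eq_append_iff.1 e2 with ⟨c, hc1, hc2⟩ | ⟨c, hc1, hc2⟩
    · exact ⟨c, hc1, hc2⟩
    · rcases c with _ | ⟨x, c⟩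
      · simp only [List.nil_append] at hc2
        simp only [List.append_nil] at hc1
        exact ⟨[], by simp [hc1], by simp [hc2]⟩
      · exfalso
        simp only [List.cons_append, List.cons.injEq] at hc2
        have := (hv h' (by rw [hc1, hc2.1]; simp)).1
        simp [hh'] at this
  obtain ⟨c, hc1, hc2⟩ := key
  subst hc1
  have e3 : A' ++ u'.reverse = (A ++ u.reverse ++ h :: v) ++ c := by
    rw [e1]; simp
  rcases List.append_eq_append_iff.1 e3 with ⟨d, hd1, hd2⟩ | ⟨d, hd1, hd2⟩
  · -- A ++ .. = A' ++ d, u'.reverse = d ++ c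
    rcases List.eq_nil_or_concat d with hd | ⟨d', x, hd⟩
    · subst hd
      simp only [List.append_nil, List.nil_append] at hd1 hd2
      exact ⟨[], by simp [hd1], by simp [hc2, ← hd2]⟩
    · exfalso
      subst hd
      have hx : isL x = true := (hu' x (by
        have : x ∈ u'.reverse := by rw [hd2]; simp
        simpa using this)).1
      rcases List.eq_nil_or_concat v with hv0 | ⟨v0, y, hv0⟩
      · subst hv0
        have h1 : (A ++ u.reverse) ++ [h] = (A' ++ d') ++ [x] := by
          have : A ++ u.reverse ++ h :: [] = A' ++ (d' ++ [x]) := by simpa using hd1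
          simpa using this
        have h2 := List.append_inj_right' h1 rfl
        simp only [List.cons.injEq, and_true] at h2
        subst h2
        simp [hh] at hx
      · subst hv0
        have h1 : (A ++ u.reverse ++ h :: v0) ++ [y] = (A' ++ d') ++ [x] := by
          have : A ++ u.reverse ++ h :: (v0 ++ [y]) = A' ++ (d' ++ [x]) := by
            simpa using hd1
          simpa using this
        have h2 := List.append_inj_right' h1 rfl
        simp only [List.cons.injEq, and_true] at h2
        subst h2
        have := (hv y (by simp)).2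
        simp [this] at hx
  · exact ⟨d, hd1, by rw [hc2, hd2]⟩

theorem join_of_disjoint {A B B' u v u' v' m' : List Sy} {h h' : Sy} {r r' : List Sy}
    (H : Rule u h v r) (H' : Rule u' h' v' r')
    (e : B = m' ++ u'.reverse ++ h' :: (v' ++ B')) :
    ∃ d, Rew rules (A ++ r ++ B) d ∧
      Rew rules ((A ++ u.reverse ++ h :: v ++ m') ++ r' ++ B') d := by
  refine ⟨A ++ r ++ m' ++ r' ++ B', ?_, ?_⟩
  · rw [rew_iff]
    exact ⟨A ++ r ++ m', B', u', h', v', r', H', by rw [e]; simp, by simp⟩
  · rw [rew_iff]
    exact ⟨A, m' ++ r' ++ B', u, h, v, r, H, by simp, by simp⟩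

theorem local_confl {x y z : List Sy} (h1 : Rew rules x y) (h2 : Rew rules x z) :
    y = z ∨ ∃ d, Rew rules y d ∧ Rew rules z d := by
  rw [rew_iff] at h1 h2
  obtain ⟨A, B, u, h, v, r, H, e1, rfl⟩ := h1
  obtain ⟨A', B', u', h', v', r', H', e2, rfl⟩ := h2
  have t1 := rule_types H
  have t2 := rule_types H'
  have e : (A ++ u.reverse) ++ (h :: (v ++ B)) = (A' ++ u'.reverse) ++ (h' :: (v' ++ B')) := by
    have := e1.symm.trans e2
    simpa using this
  rcases List.append_eq_append_iff.1 e with ⟨c, hc1, hc2⟩ | ⟨c, hc1, hc2⟩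
  · rcases c with _ | ⟨x0, m⟩
    · -- same head position
      left
      simp only [List.append_nil] at hc1
      simp only [List.nil_append, List.cons.injEq] at hc2
      obtain ⟨hc2, hc3⟩ := hc2
      subst hc2
      have e3 : u ++ A.reverse = u' ++ A'.reverse := by
        have := congrArg List.reverse hc1
        simpa using this.symm
      obtain ⟨rfl, rfl, rfl⟩ := rule_det H H' e3 hc3
      have e4 := List.append_cancel_left e3
      have e5 : A = A' := by simpa using congrArg List.reverse e4
      have e6 := List.append_cancel_left hc3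
      rw [e5, e6]
    · simp only [List.cons_append, List.cons.injEq] at hc2
      obtain ⟨rfl, hc2⟩ := hc2
      obtain ⟨m', hm1, hm2⟩ := occ_disjoint t1.2.1 t2.1 t1.2.2.1 t2.2.2.2 hc1 hc2
      right
      obtain ⟨d, hd1, hd2⟩ := join_of_disjoint (A := A) H H' hm2
      refine ⟨d, hd1, ?_⟩
      rw [hm1]; exact hd2
  · rcases c with _ | ⟨x0, m⟩
    · left
      simp only [List.append_nil] at hc1
      simp only [List.nil_append, List.cons.injEq] at hc2
      obtain ⟨hc2, hc3⟩ := hc2
      subst hc2
      have e3 : u ++ A.reverse = u' ++ A'.reverse := by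
        have := congrArg List.reverse hc1
        simpa using this
      obtain ⟨rfl, rfl, rfl⟩ := rule_det H H' e3 hc3.symm
      have e4 := List.append_cancel_left e3
      have e5 : A = A' := by simpa using congrArg List.reverse e4
      have e6 := List.append_cancel_left hc3
      rw [e5, e6]
    · simp only [List.cons_append, List.cons.injEq] at hc2
      obtain ⟨rfl, hc2⟩ := hc2
      obtain ⟨m', hm1, hm2⟩ := occ_disjoint t2.2.1 t1.1 t2.2.2.1 t1.2.2.2 hc1 hc2
      right
      obtain ⟨d, hd1, hd2⟩ := join_of_disjoint (A := A') H' H hm2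
      refine ⟨d, ?_, hd1⟩
      rw [hm1]; exact hd2

theorem rules_confluent : IsConfluent rules := by
  intro x y z h1 h2
  have := Relation.church_rosser (r := Rew rules) (a := x) (b := y) (c := z) (by
    intro a b c hab hac
    rcases local_confl hab hac with h | ⟨d, hd1, hd2⟩
    · subst h
      exact ⟨b, .refl, .refl⟩
    · exact ⟨d, .single hd1, .single hd2⟩) h1 h2
  exact this

theorem rules_red : ∀ p ∈ rules, p.2.length < p.1.length := by
  rintro ⟨l, r⟩ ⟨u, h, v, H, e⟩
  have := rule_len H
  simp only at e this ⊢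
  subst e
  simp only [List.length_append, List.length_reverse, List.length_cons]
  omega

theorem irred_of_len {x : List Sy} (hx : x.length < 3) : Irred rules x := by
  intro y h
  rw [rew_iff] at h
  obtain ⟨A, B, u, h, v, r, H, e, -⟩ := h
  have := rule_len3 H
  have e2 := congrArg List.length e
  simp only [List.length_append, List.length_reverse, List.length_cons] at e2
  omega

end PoolH48.CR
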