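import Pool.Agent.H48.CR.Mask

namespace PoolH48.CR

open Relation
open List (replicate)

theorem rep_cancel {k m : ℕ} {b c : Bool × Bool} {Q Q' : List Tm}
    (h : replicate k none ++ some b :: Q = replicate m none ++ some c :: Q') :
    k = m ∧ b = c ∧ Q = Q' := by
  induction k generalizing m with
  | zero =>
    cases m with
    | zero => simpa using h
    | succ m => simp [List.replicate_succ] at h
  | succ k ih =>
    cases m with
    | zero => simp [List.replicate_succ] at h
    | succ m =>
      simp only [List.replicate_succ, List.cons_append, List.cons.injEq, true_and] at h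
      obtain ⟨rfl, h2⟩ := ih h
      exact ⟨rfl, h2⟩

theorem enc_split {n : ℕ} {d : List (Bool × Bool)} {P X : List Tm} {b : Bool × Bool}
    (h : enc n d = P ++ some b :: X) :
    ∃ d1 d2, d = d1 ++ b :: d2 ∧ P.length = (enc n d1).length + (n + d1.length) ∧
      X = enc (n + d1.length + 1) d2 := by
  induction d generalizing n P with
  | nil => simp [enc] at h
  | cons σ d ih =>
    rw [enc] at h
    rcases List.append_eq_append_iff.1 h with ⟨c, hc1, hc2⟩ | ⟨c, hc1, hc2⟩
    · rcases c with _ | ⟨t, c⟩
      · simp only [List.nil_append, List.cons.injEq, Option.some.injEq] at hc2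
        obtain ⟨rfl, rfl⟩ := hc2
        exact ⟨[], d, rfl, by simp [hc1, enc], by simp⟩
      · simp only [List.cons_append, List.cons.injEq] at hc2
        obtain ⟨rfl, hc2⟩ := hc2
        obtain ⟨d1, d2, rfl, h2, h3⟩ := ih hc2
        refine ⟨σ :: d1, d2, rfl, ?_, ?_⟩
        · rw [hc1, enc]
          simp only [List.length_append, List.length_replicate, List.length_cons, h2]
          ring
        · rw [h3, List.length_cons]
          congr 1
          ring
    · rcases c with _ | ⟨t, c⟩
      · simp only [List.nil_append, List.cons.injEq, Option.some.injEq] at hc2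
        obtain ⟨rfl, rfl⟩ := hc2
        simp only [List.append_nil] at hc1
        exact ⟨[], d, rfl, by simp [← hc1, enc], by simp⟩
      · simp only [List.cons_append, List.cons.injEq] at hc2
        obtain ⟨rfl, hc2⟩ := hc2
        have : some b ∈ replicate n (none : Tm) := by rw [hc1]; simp
        have := List.eq_of_mem_replicate this
        cases this

/-- length of encodings -/
def lenE : ℕ → ℕ → ℕ
  | _, 0 => 0
  | n, m + 1 => n + 1 + lenE (n + 1) m

theorem enc_length (n : ℕ) (d : List (Bool × Bool)) : (enc n d).length = lenE n d.length := by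
  induction d generalizing n with
  | nil => rfl
  | cons σ d ih =>
    simp only [enc, List.length_append, List.length_replicate, List.length_cons, lenE, ih]
    ring

theorem two_lenE (n m : ℕ) : 2 * lenE n m = m * (2 * n + m + 1) := by
  induction m generalizing n with
  | zero => simp [lenE]
  | succ m ih =>
    rw [lenE, Nat.mul_add, ih]
    ring

theorem lenE_inj {n n' m : ℕ} (hm : 1 ≤ m) (h : lenE n m = lenE n' m) : n = n' := by
  have h1 := two_lenE n m
  have h2 := two_lenE n' m
  rw [h, h2] at h1
  have := Nat.eq_of_mul_eq_mul_left (by omega) h1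
  omega

theorem pos_unique {n n' : ℕ} {d d' : List (Bool × Bool)} {P P' Q Q' : List Tm}
    {b b' c c' : Bool × Bool} {k : ℕ}
    (e1 : enc n d = P ++ some b :: (replicate k none ++ some b' :: Q))
    (e2 : enc n' d' = P' ++ some c :: (replicate k none ++ some c' :: Q'))
    (hl : (enc n d).length = (enc n' d').length) (hd : d.length = d'.length) :
    P.length = P'.length := by
  obtain ⟨d1, d2, rfl, h1, h2⟩ := enc_split e1
  obtain ⟨d1', d2', rfl, h1', h2'⟩ := enc_split e2
  rw [enc_length, enc_length, hd] at hl
  have hn := lenE_inj (by simp only [List.length_append, List.length_cons]; omega) hl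
  subst hn
  have hk : k = n + d1.length + 1 := by
    rcases d2 with _ | ⟨σ, d2⟩
    · simp [enc] at h2
    · rw [enc] at h2
      exact (rep_cancel h2).1
  have hk' : k = n + d1'.length + 1 := by
    rcases d2' with _ | ⟨σ, d2'⟩
    · simp [enc] at h2'
    · rw [enc] at h2'
      exact (rep_cancel h2').1
  have : d1.length = d1'.length := by omega
  rw [h1, h1', enc_length, enc_length, this]

theorem one_br {y : List Tm} (h : 1 ≤ (br y).length) :
    ∃ k b y2, y = replicate k none ++ some b :: y2 := by
  induction y with
  | nil => simp [br_nil] at h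
  | cons t y ih =>
    rcases t with _ | σ
    · rw [br_none] at h
      obtain ⟨k, b, y2, rfl⟩ := ih h
      exact ⟨k + 1, b, y2, by simp [List.replicate_succ]⟩
    · exact ⟨0, σ, y, rfl⟩

theorem two_br {y : List Tm} (h : 2 ≤ (br y).length) :
    ∃ y1 b k b' y2, y = y1 ++ some b :: (replicate k none ++ some b' :: y2) := by
  induction y with
  | nil => simp [br_nil] at h
  | cons t y ih =>
    rcases t with _ | σ
    · rw [br_none] at h
      obtain ⟨y1, b, k, b', y2, rfl⟩ := ih h
      exact ⟨none :: y1, b, k, b', y2, by simp⟩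
    · rw [br_some, List.length_cons] at h
      obtain ⟨k, b', y2, rfl⟩ := one_br (y := y) (by omega)
      exact ⟨[], σ, k, b', y2, rfl⟩

variable {G : ProgGrammar Tm}

theorem val_lang {ℓ ℓ' : List (Item G)} {r : G.Lab} (h1 : Rch (ℓ.map shp) r)
    (h2 : Compl r (nts ℓ')) (h3 : ℓ'.map shp = ℓ.map shp) : yl ℓ' ∈ G.language := by
  obtain ⟨r0, h0⟩ := h1
  obtain ⟨r', h4⟩ := h2 ℓ' rfl
  rw [h3] at h4
  exact ⟨r0, r', ReflTransGen.trans h0 h4⟩

theorem swap_false (hL : G.language = LL \ {[]}) {m1 m2 m3 : List (Item G)} {A : G.N}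
    {y y' : List Tm} (hV : Val (m1 ++ Sum.inl (A, y) :: (m2 ++ Sum.inl (A, y') :: m3)))
    (hlong : 2 ≤ (br y).length ∨ 2 ≤ (br y').length) : False := by
  obtain ⟨hNE, r, h1, h2⟩ := hV
  have hy : y ≠ [] := hNE (A, y) (by rw [mem_nts]; simp)
  have hy' : y' ≠ [] := hNE (A, y') (by rw [mem_nts]; simp)
  have hn : nts (m1 ++ Sum.inl (A, y) :: (m2 ++ Sum.inl (A, y') :: m3)) =
      nts (m1 ++ Sum.inl (A, y') :: (m2 ++ Sum.inl (A, y) :: m3)) := by
    simp only [nts_append, nts_cons_inl, Multiset.add_cons]
    rw [Multiset.cons_swap]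
  have hz := val_lang h1 h2 rfl
  have hz' := val_lang (ℓ' := m1 ++ Sum.inl (A, y') :: (m2 ++ Sum.inl (A, y) :: m3)) h1
    (by rw [← hn]; exact h2) (by simp [shp])
  rw [hL] at hz hz'
  obtain ⟨n, d, e1, -⟩ := LL_sound hz.1
  obtain ⟨n', d', e2, -⟩ := LL_sound hz'.1
  simp only [yl_append, yl_cons, yld] at e1 e2
  have hlen : (enc n d).length = (enc n' d').length := by
    rw [← e1, ← e2]
    simp only [List.length_append]
    ring
  have hbr : d.length = d'.length := by
    have h5 := congrArg (fun w => (br w).length) e1
    have h6 := congrArg (fun w => (br w).length) e2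
    simp only [br_append, List.length_append, br_enc] at h5 h6
    omega
  have hp : 0 < y.length := List.length_pos_iff.2 hy
  have hp' : 0 < y'.length := List.length_pos_iff.2 hy'
  rcases hlong with h | h
  · obtain ⟨y1, b, k, b', y2, rfl⟩ := two_br h
    have := pos_unique (n := n) (n' := n') (d := d) (d' := d') (P := yl m1 ++ y1)
      (P' := yl m1 ++ (y' ++ (yl m2 ++ y1))) (b := b) (c := b) (b' := b') (c' := b') (k := k)
      (Q := y2 ++ (yl m2 ++ (y' ++ yl m3))) (Q' := y2 ++ yl m3)
      (by rw [← e1]; simp) (by rw [← e2]; simp) hlen hbr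
    simp only [List.length_append] at this
    omega
  · obtain ⟨y1, b, k, b', y2, rfl⟩ := two_br h
    have := pos_unique (n := n) (n' := n') (d := d) (d' := d')
      (P := yl m1 ++ (y ++ (yl m2 ++ y1))) (P' := yl m1 ++ y1)
      (b := b) (c := b) (b' := b') (c' := b') (k := k)
      (Q := y2 ++ yl m3) (Q' := y2 ++ (yl m2 ++ (y ++ yl m3)))
      (by rw [← e1]; simp) (by rw [← e2]; simp) hlen hbr
    simp only [List.length_append] at this
    omega

/-- uniqueness of long items -/
def Uq (ℓ : List (Item G)) : Prop :=
  ∀ a A y b, ℓ = a ++ Sum.inl (A, y) :: b → 2 ≤ (br y).length →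
    ∀ y', Sum.inl (A, y') ∉ a ∧ Sum.inl (A, y') ∉ b

theorem uq_of_val (hL : G.language = LL \ {[]}) {ℓ : List (Item G)} (hV : Val ℓ) : Uq ℓ := by
  rintro a A y b rfl hy y'
  constructor
  · intro h
    obtain ⟨a1, a2, rfl⟩ := List.append_of_mem h
    refine swap_false hL (m1 := a1) (m2 := a2) (m3 := b) (A := A) (y := y') (y' := y) ?_
      (Or.inr hy)
    simpa using hV
  · intro h
    obtain ⟨b1, b2, rfl⟩ := List.append_of_mem h
    exact swap_false hL hV (Or.inl hy)

/-- nonterminal of an item -/
def ntm : Item G → Option G.N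
  | .inl c => some c.1
  | .inr _ => none

theorem nb_inr (t : Tm) : nb (Sum.inr t : Item G) ≤ 1 := by
  rcases t with _ | σ <;> simp [nb, yld, br]

theorem longs_le {ℓ : List (Item G)} (h : Uq ℓ) : (longs ℓ).length ≤ Nat.card G.N := by
  classical
  have := G.finN
  have key : ∀ m pre, ℓ = pre ++ m → ((longs m).filterMap ntm).Nodup ∧
      ((longs m).filterMap ntm).length = (longs m).length := by
    intro m
    induction m with
    | nil => intro pre _; simp [longs]
    | cons x m ih =>
      intro pre e
      have h1 := ih (pre ++ [x]) (by rw [e]; simp)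
      by_cases hx : 2 ≤ nb x
      · rcases x with ⟨A, y⟩ | t
        · have h2 : longs (Sum.inl (A, y) :: m) = Sum.inl (A, y) :: longs m := by
            simp only [longs, List.filter_cons, hx, decide_true, if_true]
          rw [h2, List.filterMap_cons_some (show ntm (Sum.inl (A, y) : Item G) = some A from rfl)]
          simp only [List.nodup_cons, List.length_cons]
          refine ⟨⟨?_, h1.1⟩, by rw [h1.2]⟩
          intro hA
          rw [List.mem_filterMap] at hA
          obtain ⟨it, h3, h4⟩ := hA
          rcases it with ⟨A', y'⟩ | t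
          · have h4' : A' = A := by simpa [ntm] using h4
            subst h4'
            have h5 : Sum.inl (A', y') ∈ m := (List.mem_filter.1 h3).1
            exact (h pre A' y m e hx y').2 h5
          · simp [ntm] at h4
        · have := nb_inr (G := G) t
          omega
      · have h2 : longs (x :: m) = longs m := by
          simp [longs, hx]
        rw [h2]
        exact h1
  obtain ⟨h1, h2⟩ := key ℓ [] rfl
  have := Fintype.ofFinite G.N
  rw [← h2, Nat.card_eq_fintype_card]
  exact h1.length_le_card

theorem sw_stt_le {ℓ : List (Item G)} (h : Uq ℓ) :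
    sw (stt ℓ) 0 ((mask ℓ).length - 1) ≤ 2 * Nat.card G.N := by
  have h1 := sw_le_swl (mask ℓ) false
  have h2 := swl_mask ℓ
  have h3 := longs_le h
  unfold stt
  omega

/-- At some stage of a derivation a whole chain of pairs is cut. -/
theorem exists_cut (hne : G.NonErasing) (hL : G.language = LL \ {[]}) {ρ B : ℕ}
    (hρ : ∀ r, (G.rhs r).length ≤ ρ) (hB : ρ < 2 * B) {z : List Tm} (hz : z ∈ LL)
    (hbr : (br z).length = (Dk.core B (2 * Nat.card G.N)).len) :
    ∃ ℓ : List (Item G), Val ℓ ∧ yl ℓ = z ∧ ∃ o' e, ∀ i < B,
      (Dk.core B (2 * Nat.card G.N)).PairIn 0 (o' + i) (e - i) ∧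
        stt ℓ (o' + i) ≠ stt ℓ (e - i) := by
  have hlen2 : 2 ≤ (br z).length := by
    rw [hbr, Dk.core_len]
    have h1 : ∀ h, 2 ≤ Dk.cst h := by
      intro h
      induction h with
      | zero => simp [Dk.cst]
      | succ h ih => simp only [Dk.cst]; omega
    have := h1 (2 * Nat.card G.N)
    have hB1 : 1 ≤ B := by omega
    calc 2 = 2 * 1 := rfl
      _ ≤ _ := Nat.mul_le_mul this hB1
  have hz0 : z ≠ [] := by
    rintro rfl
    simp [br_nil] at hlen2
  have hzl : z ∈ G.language := by rw [hL]; exact ⟨hz, hz0⟩
  obtain ⟨r, r', hd⟩ := hzl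
  obtain ⟨ℓ0, e1, e2, hNE, hC, hch⟩ := decomp hne hρ hd ⟨r, .refl⟩
  have hV0 : Val ℓ0 := ⟨hNE, r, by rw [e1]; exact ⟨r, .refl⟩, hC⟩
  obtain ⟨f, n, hf0, hfn, hf⟩ := exists_seq hch
  have hVall : ∀ i, Val (f i) ∧ yl (f i) = z := by
    intro i
    induction i with
    | zero => rw [hf0]; exact ⟨hV0, e2⟩
    | succ i ih =>
      rcases hf i with h | h
      · rw [← h]; exact ih
      · exact h.2
  have hmask : ∀ i, (mask (f i)).length = (br z).length := by
    intro i
    rw [mask_length, (hVall i).2]
  have hℓ0 : ℓ0 = [Sum.inl (G.S, z)] := by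
    rcases ℓ0 with _ | ⟨x, _ | ⟨y, ℓ0⟩⟩
    · simp at e1
    · simp only [List.map_cons, List.map_nil, List.cons.injEq, and_true] at e1
      rcases x with ⟨A, y⟩ | t
      · simp only [shp, Sum.inl.injEq] at e1
        subst e1
        have : y = z := by simpa [yl, yld] using e2
        rw [this]
      · simp [shp] at e1
    · simp at e1
  rcases topo (st := fun t => stt (f t)) (ρ := ρ) (B := B) (N := (br z).length) (Te := n) hB
    (by
      intro t p hp
      rcases hf t with h | h
      · rw [h]; exact hp
      · exact rfn_mono h.1 p hp)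
    (by
      intro p hp
      rw [hf0, hℓ0]
      unfold stt
      rw [mask_cons]
      simp only [nb, yld]
      rw [getD_append', if_pos (by rw [List.length_replicate]; exact hp),
        List.getD_eq_getElem _ _ (by rw [List.length_replicate]; exact hp),
        List.getElem_replicate]
      exact decide_eq_true hlen2)
    (by
      intro p
      rw [hfn]
      unfold stt
      have : ∀ w : List Tm, ∀ b ∈ mask (w.map Sum.inr : List (Item G)), b = false := by
        intro w
        induction w with
        | nil => simp [mask]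
        | cons x w ih =>
          intro b hb
          rw [List.map_cons, mask_cons, List.mem_append] at hb
          rcases hb with hb | hb
          · rw [List.eq_of_mem_replicate hb]
            have := nb_inr (G := G) x
            simp only [decide_eq_false_iff_not]
            omega
          · exact ih b hb
      by_cases hp : p < (mask (z.map Sum.inr : List (Item G))).length
      · rw [List.getD_eq_getElem _ _ hp]
        exact this z _ (List.getElem_mem hp)
      · exact List.getD_eq_default _ _ (by omega))
    (by
      intro t x hcon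
      rcases hf t with h | h
      · have := hcon 0 (by omega)
        rw [← h, this.1] at this
        exact absurd this.2 (by simp)
      · exact rfn_loss h.1 x hcon)
    (2 * Nat.card G.N) 0 (by rw [hbr]; omega) with ⟨t, ht⟩ | ⟨t, o', e, h⟩
  · exfalso
    have h1 := sw_stt_le (uq_of_val hL (hVall t).1)
    rw [hmask, hbr] at h1
    rw [zero_add] at ht
    omega
  · exact ⟨f t, (hVall t).1, (hVall t).2, o', e, h⟩

end PoolH48.CR
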