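import Mathlib

/-! Definitions: length-reducing confluent string rewriting, Church-Rosser languages,
programmed grammars with appearance checking. -/

namespace PoolH48.CR

/-- One rewriting step `u l v → u r v` with `(l, r) ∈ R`. -/
def Rew {Γ : Type} (R : Set (List Γ × List Γ)) (x y : List Γ) : Prop :=
  ∃ u v l r, (l, r) ∈ R ∧ x = u ++ l ++ v ∧ y = u ++ r ++ v

/-- `x →* y`. -/
def RewStar {Γ : Type} (R : Set (List Γ × List Γ)) : List Γ → List Γ → Prop :=
  Relation.ReflTransGen (Rew R)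

/-- A word is irreducible when no rule applies to it. -/
def Irred {Γ : Type} (R : Set (List Γ × List Γ)) (x : List Γ) : Prop :=
  ∀ y, ¬ Rew R x y

/-- Confluence of `→*`. -/
def IsConfluent {Γ : Type} (R : Set (List Γ × List Γ)) : Prop :=
  ∀ x y z, RewStar R x y → RewStar R x z → ∃ w, RewStar R y w ∧ RewStar R z w

/-- Church-Rosser languages over the terminal alphabet `T` (embedded in `Γ` by `i`). -/
def IsChurchRosser {T : Type} (L : Set (List T)) : Prop :=
  ∃ (Γ : Type) (_ : Finite Γ) (i : T → Γ) (R : Set (List Γ × List Γ))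
    (t₁ t₂ : List Γ) (Y : Γ),
    Function.Injective i ∧
    R.Finite ∧ (∀ p ∈ R, p.2.length < p.1.length) ∧ IsConfluent R ∧
    (∀ g ∈ t₁, g ∉ Set.range i) ∧ (∀ g ∈ t₂, g ∉ Set.range i) ∧ Y ∉ Set.range i ∧
    Irred R t₁ ∧ Irred R t₂ ∧ Irred R [Y] ∧
    ∀ w : List T, RewStar R (t₁ ++ w.map i ++ t₂) [Y] ↔ w ∈ L

/-- Programmed grammars with terminal alphabet `T`; every label names exactly one rule
`lhs r → rhs r` with success field `succ r` and failure field `fail r`. -/
structure ProgGrammar (T : Type) where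
  /-- nonterminals -/
  N : Type
  /-- labels -/
  Lab : Type
  finN : Finite N
  finLab : Finite Lab
  /-- start symbol -/
  S : N
  /-- left-hand side -/
  lhs : Lab → N
  /-- right-hand side -/
  rhs : Lab → List (N ⊕ T)
  /-- success field -/
  succ : Lab → Set Lab
  /-- failure field -/
  fail : Lab → Set Lab

/-- The relation `(x, r) ⇒ (y, r')`. -/
def ProgGrammar.Step {T : Type} (G : ProgGrammar T)
    (c c' : List (G.N ⊕ T) × G.Lab) : Prop :=
  (∃ x₁ x₂, c.1 = x₁ ++ [Sum.inl (G.lhs c.2)] ++ x₂ ∧ c'.1 = x₁ ++ G.rhs c.2 ++ x₂ ∧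
      c'.2 ∈ G.succ c.2) ∨
    (Sum.inl (G.lhs c.2) ∉ c.1 ∧ c'.1 = c.1 ∧ c'.2 ∈ G.fail c.2)

/-- No erasing rules. -/
def ProgGrammar.NonErasing {T : Type} (G : ProgGrammar T) : Prop :=
  ∀ r, G.rhs r ≠ []

/-- The generated language. -/
def ProgGrammar.language {T : Type} (G : ProgGrammar T) : Set (List T) :=
  {z | ∃ r r', Relation.ReflTransGen G.Step ([Sum.inl G.S], r) (z.map Sum.inr, r')}

end PoolH48.CR
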