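import Pool.Agent.H48.CR.Splice

namespace PoolH48.CR

open Relation
open List (replicate)

/-- truncation into `Fin (M + 1)` -/
def fz (M x : ℕ) : Fin (M + 1) := ⟨min x M, by omega⟩

theorem fz_inj {M x y : ℕ} (hx : x ≤ M) (hy : y ≤ M) (h : fz M x = fz M y) : x = y := by
  have := congrArg Fin.val h
  simp only [fz] at this
  omega

theorem poly_lt_exp (C k : ℕ) : ∀ᶠ n : ℕ in Filter.atTop, C * n ^ k < 2 ^ n := by
  have h := tendsto_pow_const_div_const_pow_of_one_lt k (r := (2 : ℝ)) (by norm_num)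
  have h2 : ∀ᶠ n : ℕ in Filter.atTop, (n : ℝ) ^ k / 2 ^ n < 1 / (C + 1) :=
    h.eventually (gt_mem_nhds (by positivity))
  filter_upwards [h2] with n hn
  have h3 : (0 : ℝ) < 2 ^ n := by positivity
  rw [div_lt_div_iff₀ h3 (by positivity)] at hn
  have h4 : ((C * n ^ k : ℕ) : ℝ) < ((2 ^ n : ℕ) : ℝ) := by
    push_cast
    have : (0 : ℝ) ≤ (n : ℝ) ^ k := by positivity
    nlinarith
  exact_mod_cast h4

theorem exists_pow4 (x : ℕ) (hx : 2 ≤ x) : ∃ κ, 1 ≤ κ ∧ x ≤ 4 ^ κ ∧ 4 ^ κ < 4 * x := by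
  classical
  have hex : ∃ κ, x ≤ 4 ^ κ := ⟨x, (Nat.lt_pow_self (by norm_num)).le⟩
  refine ⟨Nat.find hex, ?_, Nat.find_spec hex, ?_⟩
  · by_contra h
    have h0 : Nat.find hex = 0 := by omega
    have := Nat.find_spec hex
    rw [h0] at this
    simp at this
    omega
  · have hpos : Nat.find hex ≠ 0 := by
      intro h0
      have := Nat.find_spec hex
      rw [h0] at this
      simp at this
      omega
    obtain ⟨j, hj⟩ := Nat.exists_eq_succ_of_ne_zero hpos
    have := Nat.find_min hex (m := j) (by omega)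
    rw [hj, Nat.succ_eq_add_one, pow_succ]
    omega

/-- extension of a finite family of types -/
def ext {N : ℕ} (τ : Fin N → Bool) (p : ℕ) : Bool := if h : p < N then τ ⟨p, h⟩ else false

theorem main (G : ProgGrammar Tm) (hne : G.NonErasing) : G.language ≠ LL \ {[]} := by
  intro hL
  classical
  have := G.finN
  have := G.finLab
  have := Fintype.ofFinite G.N
  have := Fintype.ofFinite G.Lab
  -- constants
  obtain ⟨ρ, hρ⟩ : ∃ ρ, ∀ r, (G.rhs r).length ≤ ρ := by
    obtain ⟨ρ, h⟩ := (Set.finite_range (fun r => (G.rhs r).length)).bddAbove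
    exact ⟨ρ, fun r => h ⟨r, rfl⟩⟩
  set H := 2 * Nat.card G.N with hH
  set c0 := Dk.cst H with hc0
  set KK := Fintype.card (G.N × Option (Option (Bool × Bool))) with hKK
  set NN := Fintype.card G.N with hNN
  set LLb := Fintype.card G.Lab with hLLb
  have hc02 : 2 ≤ c0 := by
    have h1 : ∀ h, 2 ≤ Dk.cst h := by
      intro h
      induction h with
      | zero => simp [Dk.cst]
      | succ h ih => simp only [Dk.cst]; omega
    exact h1 H
  obtain ⟨B, hB1, hB2, hB3⟩ : ∃ B : ℕ, 1 ≤ B ∧ ρ < 2 * B ∧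
      LLb * (6 * c0 ^ 2 * B ^ 2) ^ (KK + 2 * NN + 2) < 2 ^ B := by
    have h1 := poly_lt_exp (LLb * (6 * c0 ^ 2) ^ (KK + 2 * NN + 2)) (2 * (KK + 2 * NN + 2))
    have h2 := h1.and (Filter.eventually_ge_atTop (ρ + 1))
    obtain ⟨B, hB, hB'⟩ := h2.exists
    refine ⟨B, by omega, by omega, ?_⟩
    calc LLb * (6 * c0 ^ 2 * B ^ 2) ^ (KK + 2 * NN + 2)
        = LLb * (6 * c0 ^ 2) ^ (KK + 2 * NN + 2) * B ^ (2 * (KK + 2 * NN + 2)) := by
          rw [mul_pow, ← pow_mul, mul_assoc]
      _ < 2 ^ B := hB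
  set D := Dk.core B H with hD
  set Nn := D.len with hNn
  have hNn' : Nn = c0 * B := Dk.core_len _ _
  have hBN : B ≤ Nn := by rw [hNn']; nlinarith
  have hN2 : 2 ≤ Nn := by rw [hNn']; nlinarith
  obtain ⟨κ, hκ1, hκ2, hκ3⟩ := exists_pow4 Nn hN2
  set n0 := 4 ^ κ with hn0
  set M := lenE n0 Nn with hM
  have hM1 : M + 1 ≤ 6 * c0 ^ 2 * B ^ 2 := by
    have h1 := two_lenE n0 Nn
    have h2 : 6 * c0 ^ 2 * B ^ 2 = 6 * (Nn * Nn) := by rw [hNn']; ring
    rw [h2]
    have h3 : Nn * (2 * n0 + Nn + 1) ≤ Nn * (10 * Nn) := Nat.mul_le_mul_left _ (by omega)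
    nlinarith
  have hNM : Nn ≤ M := by
    have h1 := two_lenE n0 Nn
    have h3 : Nn * 2 ≤ Nn * (2 * n0 + Nn + 1) := Nat.mul_le_mul_left _ (by omega)
    omega
  obtain ⟨op, hop⟩ := Dk.exists_op D 0
  -- the family of words
  set dd : (Fin Nn → Bool) → List (Bool × Bool) :=
    fun τ => ty 0 D.word (fun p => ext τ (op p)) with hdd
  have hddlen : ∀ τ, (dd τ).length = Nn := by
    intro τ
    rw [hdd]
    simp only
    rw [ty_length, Dk.word_length]
  have hdyck : ∀ τ, run [] (dd τ) = some [] := by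
    intro τ
    have := (run_ty D 0 (fun p => ext τ (op p)) [] [] []).2 ⟨by
      intro p q hpq
      have := hop p q hpq
      simp only [this.1, this.2], rfl⟩
    simpa using this
  have hzL : ∀ τ, enc n0 (dd τ) ∈ LL := by
    intro τ
    exact LL_complete hκ1 (by rw [hddlen]; exact hN2) (by rw [hddlen]; exact hκ2) (hdyck τ)
  have hdata : ∀ τ, ∃ (ℓ : List (Item G)) (r : G.Lab) (o' e : ℕ), Uq ℓ ∧ NE ℓ ∧
      Rch (ℓ.map shp) r ∧ Compl r (nts ℓ) ∧ yl ℓ = enc n0 (dd τ) ∧
      ∀ i < B, D.PairIn 0 (o' + i) (e - i) ∧ stt ℓ (o' + i) ≠ stt ℓ (e - i) := by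
    intro τ
    obtain ⟨ℓ, hV, h1, o', e, h2⟩ := exists_cut hne hL hρ hB2 (hzL τ)
      (by rw [br_enc, hddlen])
    obtain ⟨hNE, r, h3, h4⟩ := id hV
    exact ⟨ℓ, r, o', e, uq_of_val hL hV, hNE, h3, h4, h1, h2⟩
  choose ℓf rf of ef hUq hNE hRch hCompl hyl hcut using hdata
  -- the code
  let code : (Fin Nn → Bool) → G.Lab × (G.N × Option (Option (Bool × Bool)) → Fin (M + 1)) ×
      (G.N → Fin (M + 1) × Fin (M + 1)) × Fin (M + 1) × Fin (M + 1) := fun τ =>
    (rf τ, fun k => fz M (((nts (ℓf τ)).map key).count k),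
      fun A => (fz M (gfun (ℓf τ) A).1, fz M (gfun (ℓf τ) A).2), fz M (of τ), fz M (ef τ))
  have hylen : ∀ τ, (yl (ℓf τ)).length = M := by
    intro τ
    rw [hyl, enc_length, hddlen]
  have hbrlen : ∀ τ, (br (yl (ℓf τ))).length = Nn := by
    intro τ
    rw [hyl, br_enc, hddlen]
  have hrange : ∀ τ, of τ + B ≤ Nn ∧ ef τ < Nn := by
    intro τ
    have h1 := Dk.pairIn_range (hcut τ (B - 1) (by omega)).1
    have h2 := Dk.pairIn_range (hcut τ 0 (by omega)).1
    omega
  have hcode : ∀ τ τ', code τ = code τ' → of τ = of τ' ∧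
      ∀ i < B, ext τ (of τ + i) = ext τ' (of τ + i) := by
    intro τ τ' hc
    simp only [code, Prod.mk.injEq] at hc
    obtain ⟨hc1, hc2, hc3, hc4, hc5⟩ := hc
    have ho : of τ = of τ' := fz_inj (by have := hrange τ; omega) (by have := hrange τ'; omega) hc4
    refine ⟨ho, ?_⟩
    have hg : gfun (ℓf τ) = gfun (ℓf τ') := by
      funext A
      have h1 := congrFun hc3 A
      simp only [Prod.mk.injEq] at h1
      have h2 := gfun_le (ℓf τ) A
      have h3 := gfun_le (ℓf τ') A
      rw [hbrlen] at h2 h3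
      exact Prod.ext (fz_inj (by omega) (by omega) h1.1) (fz_inj (by omega) (by omega) h1.2)
    have hkeys : (nts (ℓf τ')).map key = (nts (ℓf τ)).map key := by
      ext k
      have h1 := congrFun hc2 k
      have h2 : ((nts (ℓf τ)).map key).count k ≤ M := by
        refine (Multiset.count_le_card _ _).trans ?_
        rw [Multiset.card_map, ← hylen τ]
        exact card_nts_le (hNE τ)
      have h3 : ((nts (ℓf τ')).map key).count k ≤ M := by
        refine (Multiset.count_le_card _ _).trans ?_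
        rw [Multiset.card_map, ← hylen τ']
        exact card_nts_le (hNE τ')
      exact (fz_inj h2 h3 h1).symm
    obtain ⟨w, hw1, hw2⟩ := splice (ℓ := ℓf τ) (ℓ' := ℓf τ') (g := gfun (ℓf τ))
      (gfun_spec (hUq τ)) (by rw [hg]; exact gfun_spec (hUq τ')) (hRch τ)
      (by rw [hc1]; exact hCompl τ') hkeys
    rw [hL] at hw1
    obtain ⟨n, d, rfl, hd⟩ := LL_sound hw1.1
    rw [br_enc] at hw2
    have hdty : d = ty 0 D.word (fun p => if stt (ℓf τ) p = true then ext τ' (op p)
        else ext τ (op p)) := by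
      apply List.ext_getElem?
      intro p
      rw [hw2, hyl, hyl, br_enc, br_enc]
      simp only [hdd, ty_get, zero_add]
      split_ifs with h
      · rfl
      · rfl
    rw [hdty] at hd
    have hrun := (run_ty D 0 _ [] [] []).1 (by simpa using hd)
    intro i hi
    obtain ⟨h1, h2⟩ := hcut τ i hi
    have h3 := hrun.1 _ _ h1
    have h4 := hop _ _ h1
    rw [h4.1, h4.2] at h3
    cases h5 : stt (ℓf τ) (of τ + i) <;> cases h6 : stt (ℓf τ) (ef τ - i)
    · rw [h5, h6] at h2; exact absurd rfl h2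
    · simp only [h5, h6, Bool.false_eq_true, if_false, if_true] at h3; exact h3
    · simp only [h5, h6, Bool.false_eq_true, if_false, if_true] at h3; exact h3.symm
    · rw [h5, h6] at h2; exact absurd rfl h2
  -- the injection
  let F : (Fin Nn → Bool) → (G.Lab × (G.N × Option (Option (Bool × Bool)) → Fin (M + 1)) ×
      (G.N → Fin (M + 1) × Fin (M + 1)) × Fin (M + 1) × Fin (M + 1)) × (Fin (Nn - B) → Bool) :=
    fun τ => (code τ, fun i => if (i : ℕ) < of τ then ext τ i else ext τ (i + B))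
  have hF : Function.Injective F := by
    intro τ τ' h
    simp only [F, Prod.mk.injEq] at h
    obtain ⟨h1, h2⟩ := h
    obtain ⟨h3, h4⟩ := hcode τ τ' h1
    rw [← h3] at h2
    have hr := hrange τ
    have key : ∀ p < Nn, ext τ p = ext τ' p := by
      intro p hp
      rcases lt_or_ge p (of τ) with h5 | h5
      · have := congrFun h2 ⟨p, by omega⟩
        simpa [h5] using this
      · rcases lt_or_ge p (of τ + B) with h6 | h6
        · have := h4 (p - of τ) (by omega)
          rw [Nat.add_sub_cancel' h5] at this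
          exact this
        · have := congrFun h2 ⟨p - B, by omega⟩
          simp only at this
          rw [if_neg (by omega), if_neg (by omega), Nat.sub_add_cancel (by omega)] at this
          exact this
    funext i
    have := key i i.2
    simpa [ext] using this
  have hcard := Fintype.card_le_of_injective F hF
  simp only [Fintype.card_prod, Fintype.card_fun, Fintype.card_fin, Fintype.card_bool] at hcard
  have hcard2 : (2 : ℕ) ^ Nn = 2 ^ B * 2 ^ (Nn - B) := by
    rw [← pow_add]; congr 1; omega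
  rw [hcard2] at hcard
  have hcard3 := Nat.le_of_mul_le_mul_right hcard (by positivity)
  have hbig : LLb * ((M + 1) ^ KK * (((M + 1) * (M + 1)) ^ NN * ((M + 1) * (M + 1)))) ≤
      LLb * (6 * c0 ^ 2 * B ^ 2) ^ (KK + 2 * NN + 2) := by
    have : (M + 1) ^ KK * (((M + 1) * (M + 1)) ^ NN * ((M + 1) * (M + 1))) =
        (M + 1) ^ (KK + 2 * NN + 2) := by
      rw [← pow_two, ← pow_mul, ← pow_add, ← pow_add]
      congr 1
    rw [this]
    exact Nat.mul_le_mul_left _ (Nat.pow_le_pow_left hM1 _)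
  have : KK = Fintype.card G.N * Fintype.card (Option (Option (Bool × Bool))) := by
    rw [hKK, Fintype.card_prod]
  rw [this] at hbig hB3
  have hcard4 := hcard3.trans hbig
  omega

end PoolH48.CR
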