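import Pool.Agent.H48.CR.Defs

namespace PoolH48.CR

open Relation

section
variable {T : Type} (G : ProgGrammar T)

/-- Items: nonterminals together with the terminal word they finally yield, or terminals. -/
abbrev Item := (G.N × List T) ⊕ T

variable {G}

/-- underlying symbol -/
def shp : Item G → G.N ⊕ T
  | .inl c => .inl c.1
  | .inr a => .inr a

/-- yield of an item -/
def yld : Item G → List T
  | .inl c => c.2
  | .inr a => [a]

/-- nonterminal items, as a multiset -/
def nts (ℓ : List (Item G)) : Multiset (G.N × List T) :=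
  ((ℓ.filterMap Sum.getLeft? : List (G.N × List T)) : Multiset (G.N × List T))

theorem nts_append (a b : List (Item G)) : nts (a ++ b) = nts a + nts b := by
  simp [nts, List.filterMap_append]

theorem nts_cons_inl (c : G.N × List T) (b : List (Item G)) :
    nts (Sum.inl c :: b) = c ::ₘ nts b := by
  simp [nts]

theorem nts_cons_inr (c : T) (b : List (Item G)) :
    nts (Sum.inr c :: b) = nts b := by
  rfl

theorem mem_nts {c : G.N × List T} {ℓ : List (Item G)} : c ∈ nts ℓ ↔ Sum.inl c ∈ ℓ := by
  induction ℓ with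
  | nil => simp [nts]
  | cons x ℓ ih =>
    rcases x with x | x
    · rw [nts_cons_inl, Multiset.mem_cons, ih, List.mem_cons, Sum.inl.injEq]
    · rw [nts_cons_inr, ih, List.mem_cons]
      simp

/-- yield of a list of items -/
def yl (ℓ : List (Item G)) : List T := ℓ.flatMap yld

theorem yl_append (a b : List (Item G)) : yl (a ++ b) = yl a ++ yl b := by
  simp [yl]

theorem yl_cons (x : Item G) (b : List (Item G)) : yl (x :: b) = yld x ++ yl b := by
  simp [yl]

/-- derivations -/
def Der (c c' : List (G.N ⊕ T) × G.Lab) : Prop := ReflTransGen G.Step c c'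

/-- Completions from label `r`. -/
def Compl (r : G.Lab) (ms : Multiset (G.N × List T)) : Prop :=
  ∀ ℓ : List (Item G), nts ℓ = ms → ∃ r', Der (ℓ.map shp, r) ((yl ℓ).map Sum.inr, r')

/-- reachability -/
def Rch (x : List (G.N ⊕ T)) (r : G.Lab) : Prop := ∃ r0, Der ([Sum.inl G.S], r0) (x, r)

/-- nonempty yields -/
def NE (ℓ : List (Item G)) : Prop := ∀ c ∈ nts ℓ, c.2 ≠ []

/-- valid item lists -/
def Val (ℓ : List (Item G)) : Prop := NE ℓ ∧ ∃ r, Rch (ℓ.map shp) r ∧ Compl r (nts ℓ)

/-- refinement of one item into at most `ρ` items -/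
def Rfn (ρ : ℕ) (ℓ ℓ' : List (Item G)) : Prop :=
  ∃ l₁ A its l₂, ℓ = l₁ ++ Sum.inl (A, yl its) :: l₂ ∧ ℓ' = l₁ ++ its ++ l₂ ∧ its.length ≤ ρ

theorem compl_zero (r : G.Lab) : Compl r (0 : Multiset (G.N × List T)) := by
  intro ℓ hℓ
  refine ⟨r, ?_⟩
  have : ℓ.map shp = (yl ℓ).map Sum.inr := by
    induction ℓ with
    | nil => rfl
    | cons x ℓ ih =>
      rcases x with x | x
      · rw [nts_cons_inl] at hℓ
        exact absurd hℓ (by simp)
      · rw [nts_cons_inr] at hℓ
        rw [yl_cons, List.map_cons, List.map_append, ih hℓ]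
        rfl
  rw [this]
  exact .refl

theorem nts_inr (z : List T) : nts (z.map Sum.inr : List (Item G)) = 0 := by
  induction z with
  | nil => rfl
  | cons x z ih => rw [List.map_cons, nts_cons_inr, ih]

theorem yl_inr (z : List T) : yl (z.map Sum.inr : List (Item G)) = z := by
  induction z with
  | nil => rfl
  | cons x z ih => rw [List.map_cons, yl_cons, ih]; rfl

theorem shp_inr (z : List T) : (z.map Sum.inr : List (Item G)).map shp = z.map Sum.inr := by
  simp [List.map_map, Function.comp_def, shp]

theorem compl_succ {r r' : G.Lab} (hr : r' ∈ G.succ r) {its : List (Item G)}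
    (hits : its.map shp = G.rhs r) {ms : Multiset (G.N × List T)}
    (h : Compl r' (nts its + ms)) : Compl r ((G.lhs r, yl its) ::ₘ ms) := by
  intro ℓ hℓ
  have hmem : (G.lhs r, yl its) ∈ nts ℓ := by rw [hℓ]; simp
  rw [mem_nts] at hmem
  obtain ⟨a, b, rfl⟩ := List.append_of_mem hmem
  rw [nts_append, nts_cons_inl, Multiset.add_cons, Multiset.cons_inj_right] at hℓ
  obtain ⟨r'', hd⟩ := h (a ++ its ++ b) (by
    rw [nts_append, nts_append, ← hℓ]
    rw [add_comm (nts a) (nts its), add_assoc])
  refine ⟨r'', ?_⟩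
  have e1 : yl (a ++ its ++ b) = yl (a ++ Sum.inl (G.lhs r, yl its) :: b) := by
    rw [yl_append, yl_append, yl_append, yl_cons, List.append_assoc]; rfl
  rw [e1] at hd
  refine ReflTransGen.head ?_ hd
  left
  refine ⟨a.map shp, b.map shp, ?_, ?_, hr⟩
  · simp [shp]
  · simp [hits]

theorem compl_fail {r r' : G.Lab} (hr : r' ∈ G.fail r) {ms : Multiset (G.N × List T)}
    (hn : ∀ y, (G.lhs r, y) ∉ ms)
    (h : Compl r' ms) : Compl r ms := by
  intro ℓ hℓ
  obtain ⟨r'', hd⟩ := h ℓ hℓ
  refine ⟨r'', ReflTransGen.head ?_ hd⟩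
  right
  refine ⟨?_, rfl, hr⟩
  simp only [List.mem_map]
  rintro ⟨x, hx1, hx2⟩
  rcases x with ⟨A, y⟩ | x
  · simp only [shp, Sum.inl.injEq] at hx2
    subst hx2
    exact hn y (by rw [← hℓ]; exact mem_nts.2 hx1)
  · cases hx2

theorem decomp (hG : G.NonErasing) {ρ : ℕ} (hρ : ∀ r, (G.rhs r).length ≤ ρ) {z : List T}
    {r' : G.Lab} {c : List (G.N ⊕ T) × G.Lab} (hd : Der c (z.map Sum.inr, r'))
    (hr : Rch c.1 c.2) :
    ∃ ℓ : List (Item G), ℓ.map shp = c.1 ∧ yl ℓ = z ∧ NE ℓ ∧ Compl c.2 (nts ℓ) ∧
      ReflTransGen (fun a b => Rfn ρ a b ∧ Val b ∧ yl b = z) ℓ (z.map Sum.inr) := by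
  unfold Der at hd
  induction hd using ReflTransGen.head_induction_on with
  | refl =>
    refine ⟨z.map Sum.inr, shp_inr z, yl_inr z, ?_, ?_, .refl⟩
    · intro c hc
      rw [nts_inr] at hc
      simp at hc
    · simp only [nts_inr]
      exact compl_zero _
  | head h1 h2 ih =>
    rename_i c c1
    have hr1 : Rch c1.1 c1.2 := by
      obtain ⟨r0, h0⟩ := hr
      exact ⟨r0, ReflTransGen.tail h0 h1⟩
    obtain ⟨ℓ, e1, e2, hNE, hC, hch⟩ := ih hr1
    rcases h1 with ⟨x₁, x₂, hx, hy, hs⟩ | ⟨hn, hx, hs⟩
    · rw [hy] at e1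
      rw [List.map_eq_append_iff] at e1
      obtain ⟨l12, m2, rfl, e3, e4⟩ := e1
      rw [List.map_eq_append_iff] at e3
      obtain ⟨m1, its, rfl, e5, e6⟩ := e3
      have hits : its ≠ [] := by
        intro h
        subst h
        exact hG c.2 e6.symm
      refine ⟨m1 ++ Sum.inl (G.lhs c.2, yl its) :: m2, ?_, ?_, ?_, ?_, ?_⟩
      · rw [hx, List.map_append, List.map_cons, e5, e4]
        simp [shp]
      · rw [← e2, yl_append, yl_append, yl_append, yl_cons, List.append_assoc]; rfl
      · intro d hd
        rw [nts_append, nts_cons_inl, Multiset.add_cons, Multiset.mem_cons] at hd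
        rcases hd with rfl | hd
        · simp only
          rcases its with _ | ⟨x, its⟩
          · exact absurd rfl hits
          · rw [yl_cons]
            rcases x with ⟨A, y⟩ | x
            · have : y ≠ [] := hNE (A, y) (by
                rw [mem_nts]; simp)
              simp only [yld]
              intro h
              exact this (List.append_eq_nil_iff.1 h).1
            · simp [yld]
        · apply hNE
          rw [nts_append, nts_append]
          rw [Multiset.mem_add] at hd
          rcases hd with hd | hd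
          · simp [hd]
          · simp [hd]
      · rw [nts_append, nts_cons_inl, Multiset.add_cons]
        apply compl_succ hs e6
        convert hC using 1
        rw [nts_append, nts_append]
        rw [add_comm (nts m1) (nts its), add_assoc]
      · refine ReflTransGen.head ⟨?_, ⟨hNE, c1.2, ?_, hC⟩, e2⟩ hch
        · refine ⟨m1, G.lhs c.2, its, m2, rfl, rfl, ?_⟩
          have := hρ c.2
          rw [← e6, List.length_map] at this
          exact this
        · convert hr1 using 1
          rw [hy, List.map_append, List.map_append, e5, e6, e4]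
    · refine ⟨ℓ, by rw [e1, hx], e2, hNE, ?_, hch⟩
      apply compl_fail hs _ hC
      intro y hy
      apply hn
      rw [← hx, ← e1, List.mem_map]
      exact ⟨_, mem_nts.1 hy, rfl⟩

/-- chains as sequences -/
theorem exists_seq {α : Type} {R : α → α → Prop} {a b : α} (h : ReflTransGen R a b) :
    ∃ (f : ℕ → α) (n : ℕ), f 0 = a ∧ f n = b ∧ ∀ i, f i = f (i + 1) ∨ R (f i) (f (i + 1)) := by
  induction h using ReflTransGen.head_induction_on with
  | refl => exact ⟨fun _ => b, 0, rfl, rfl, fun i => Or.inl rfl⟩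
  | head h1 h2 ih =>
    rename_i a c
    obtain ⟨f, n, h3, h4, h5⟩ := ih
    refine ⟨fun i => Nat.casesOn i a f, n + 1, rfl, h4, ?_⟩
    intro i
    cases i with
    | zero => right; simpa [h3] using h1
    | succ i => exact h5 i

end

end PoolH48.CR
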