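import Pool.Agent.H48.CR.Compl

namespace PoolH48.CR

open List (replicate)

/-- Terminal letters: `none` is the letter `a`, `some (o, x)` a bracket of type `x`, opening when
`o = true`. -/
abbrev Tm := Option (Bool × Bool)

/-- embedding of terminals into symbols -/
def emb : Tm → Sy
  | none => .a
  | some σ => .sp σ true

/-- terminals to tokens -/
def tk : Tm → Tok
  | none => none
  | some σ => some (σ, true)

/-- `a^n d₁ a^{n+1} d₂ …` -/
def enc : ℕ → List (Bool × Bool) → List Tm
  | _, [] => []
  | n, σ :: d => replicate n none ++ some σ :: enc (n + 1) d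

/-- blocks of an encoded word -/
def blks : ℕ → List (Bool × Bool) → List Blk
  | _, [] => []
  | n, σ :: d => (n, σ, true) :: blks (n + 1) d

/-- The language. -/
def LL : Set (List Tm) := {w | RewStar rules ([.lend, .s] ++ w.map emb ++ [.rend]) [.Y]}

theorem emb_tk (t : Tm) : emb t = toR (tk t) := by
  rcases t with _ | σ <;> rfl

theorem mem_LL {w : List Tm} : w ∈ LL ↔ Acc .s [] (w.map tk) := by
  rw [← acc_iff]
  have : ([.lend, .s] ++ w.map emb ++ [.rend] : List Sy) = wd .s [] (w.map tk) := by
    simp [wd, List.map_map, Function.comp_def, emb_tk]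
  rw [← this]
  rfl

theorem LL_church_rosser : IsChurchRosser LL := by
  refine ⟨Sy, inferInstance, emb, rules, [.lend, .s], [.rend], .Y, ?_, rules_finite, rules_red,
    rules_confluent, ?_, ?_, ?_, irred_of_len (by simp), irred_of_len (by simp),
    irred_of_len (by simp), fun w => Iff.rfl⟩
  · rintro (_ | σ) (_ | σ') h
    · rfl
    · cases h
    · cases h
    · cases h; rfl
  · intro g hg
    simp only [List.mem_cons, List.not_mem_nil, or_false] at hg
    rintro ⟨_ | σ, rfl⟩ <;> rcases hg with hg | hg <;> cases hg
  · intro g hg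
    simp only [List.mem_cons, List.not_mem_nil, or_false] at hg
    rintro ⟨_ | σ, rfl⟩ <;> cases hg
  · rintro ⟨_ | σ, h⟩ <;> cases h

theorem enc_blks (n : ℕ) (d : List (Bool × Bool)) : (enc n d).map tk = encB (blks n d) := by
  induction d generalizing n with
  | nil => rfl
  | cons σ d ih => simp [enc, blks, encB, ih, tk]

theorem sg_blks (n : ℕ) (d : List (Bool × Bool)) : sg (blks n d) = d := by
  induction d generalizing n with
  | nil => rfl
  | cons σ d ih =>
    have := ih (n + 1)
    simp only [sg] at this
    simp [sg, blks, this]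

theorem ch_blks (n : ℕ) (d : List (Bool × Bool)) : Ch n true (blks (n + 1) d) := by
  induction d generalizing n with
  | nil => trivial
  | cons σ d ih => exact ⟨rfl, ih _⟩

theorem sz_blks (n : ℕ) (d : List (Bool × Bool)) : Sz n (n + d.length) (blks n d) := by
  induction d generalizing n with
  | nil => intro b hb; simp [blks] at hb
  | cons σ d ih =>
    intro b hb
    simp only [blks, List.mem_cons] at hb
    rcases hb with rfl | hb
    · simp
    · have := ih (n + 1) b hb
      simp only [List.length_cons]
      omega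

theorem LL_complete {κ : ℕ} (hκ : 1 ≤ κ) {d : List (Bool × Bool)} (h2 : 2 ≤ d.length)
    (h3 : d.length ≤ 4 ^ κ) (hd : run [] d = some []) : enc (4 ^ κ) d ∈ LL := by
  rw [mem_LL, enc_blks]
  rcases d with _ | ⟨σ, d⟩
  · simp at h2
  apply acc_of_fw
  have hsz := sz_blks (4 ^ κ) (σ :: d)
  have hP : 0 < 4 ^ κ := by positivity
  refine ⟨κ, 0, 4 ^ κ, σ, true, blks (4 ^ κ + 1) d, rfl, rfl, hP, ch_blks _ _, by omega, by omega,
    ?_, ?_, fun h => by omega, ?_⟩
  · intro b hb
    have := hsz b (by simp [blks, hb])
    omega
  · rcases d with _ | ⟨σ', d⟩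
    · simp at h2
    · simp [blks]
  · rw [sg_blks]; exact hd

theorem map_tk_enc {w : List Tm} {n : ℕ} {σ : Bool × Bool} {c : Bool} {bs : List Blk}
    (e : w.map tk = encB ((n, σ, c) :: bs)) (h : Ch n c bs) : w = enc n (σ :: sg bs) := by
  induction bs generalizing w n σ c with
  | nil =>
    induction n generalizing w with
    | zero =>
      rcases w with _ | ⟨_ | σ', w⟩
      · simp [encB] at e
      · simp [encB, tk] at e
      · simp [encB, tk] at e
        simp [enc, sg, e.1.1, e.2]
    | succ n ih =>
      rcases w with _ | ⟨_ | σ', w⟩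
      · simp [encB] at e
      · rw [enc1] at e
        simp only [List.map_cons, List.cons.injEq] at e
        have := ih e.2 trivial
        rw [this]
        simp [enc, List.replicate_succ, sg]
      · rw [enc1] at e
        simp [tk] at e
  | cons b bs ih0 =>
    obtain ⟨n2, σ2, c2⟩ := b
    obtain ⟨h1, h2⟩ := h
    suffices H : ∀ (m : ℕ) (w : List Tm), w.map tk = encB ((m, σ, c) :: (n2, σ2, c2) :: bs) →
        c = true ∧ w = replicate m none ++ some σ :: enc n2 (σ2 :: sg bs) by
      obtain ⟨rfl, h3⟩ := H n w e
      rw [h3]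
      simp only [Bool.toNat_true] at h1
      subst h1
      rfl
    intro m
    induction m with
    | zero =>
      intro w e
      rcases w with _ | ⟨_ | σ', w⟩
      · simp [encB] at e
      · rw [enc0] at e; simp [tk] at e
      · rw [enc0] at e
        simp only [List.map_cons, tk, List.cons.injEq, Option.some.injEq, Prod.mk.injEq] at e
        obtain ⟨⟨rfl, rfl⟩, e0⟩ := e
        refine ⟨rfl, ?_⟩
        have := ih0 e0 h2
        rw [this]
        simp
    | succ m ih =>
      intro w e
      rcases w with _ | ⟨_ | σ', w⟩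
      · simp [encB] at e
      · rw [enc1] at e
        simp only [List.map_cons, List.cons.injEq] at e
        obtain ⟨h3, h4⟩ := ih w e.2
        refine ⟨h3, ?_⟩
        rw [h4]
        simp [List.replicate_succ]
      · rw [enc1] at e
        simp [tk] at e

theorem LL_sound {w : List Tm} (h : w ∈ LL) : ∃ n d, w = enc n d ∧ run [] d = some [] := by
  rw [mem_LL] at h
  have hI := inv_of_acc h 0 rfl
  rcases w with _ | ⟨t, w⟩
  · exact ⟨0, [], rfl, rfl⟩
  · obtain ⟨n, σ, c, bs, e1, e2, e3⟩ := hI (by simp)
    exact ⟨n, σ :: sg bs, map_tk_enc e1 (by simpa using e2), e3⟩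

end PoolH48.CR
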