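import Pool.Agent.H48.CR.Sound

namespace PoolH48.CR

/-- Bracket structures. -/
inductive Dk : Type
  | nil
  | pair (a : Dk)
  | cat (a b : Dk)

namespace Dk

/-- number of brackets -/
def len : Dk → ℕ
  | nil => 0
  | pair a => a.len + 2
  | cat a b => a.len + b.len

/-- matched pairs of positions, with offset `o` -/
def PairIn : Dk → ℕ → ℕ → ℕ → Prop
  | nil, _, _, _ => False
  | pair a, o, p, q => (p = o ∧ q = o + a.len + 1) ∨ PairIn a (o + 1) p q
  | cat a b, o, p, q => PairIn a o p q ∨ PairIn b (o + a.len) p q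

/-- opening/closing pattern -/
def word : Dk → List Bool
  | nil => []
  | pair a => true :: (a.word ++ [false])
  | cat a b => a.word ++ b.word

theorem word_length (D : Dk) : D.word.length = D.len := by
  induction D with
  | nil => rfl
  | pair a ih => simp [word, len, ih]
  | cat a b iha ihb => simp [word, len, iha, ihb]

theorem pairIn_range {D : Dk} {o p q : ℕ} (h : D.PairIn o p q) :
    o ≤ p ∧ p < q ∧ q < o + D.len := by
  induction D generalizing o with
  | nil => exact h.elim
  | pair a ih =>
    rcases h with ⟨rfl, rfl⟩ | h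
    · simp only [len]; omega
    · have := ih h
      simp only [len]; omega
  | cat a b iha ihb =>
    rcases h with h | h
    · have := iha h
      simp only [len]; omega
    · have := ihb h
      simp only [len]; omega

theorem exists_op (D : Dk) (o : ℕ) :
    ∃ op : ℕ → ℕ, ∀ p q, D.PairIn o p q → op p = p ∧ op q = p := by
  induction D generalizing o with
  | nil => exact ⟨id, fun p q h => h.elim⟩
  | pair a ih =>
    obtain ⟨f, hf⟩ := ih (o + 1)
    refine ⟨fun x => if x = o ∨ x = o + a.len + 1 then o else f x, ?_⟩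
    intro p q h
    rcases h with ⟨rfl, rfl⟩ | h
    · simp
    · have h1 := pairIn_range h
      have h2 := hf p q h
      have h3 : ¬ (p = o ∨ p = o + a.len + 1) := by omega
      have h4 : ¬ (q = o ∨ q = o + a.len + 1) := by omega
      simp only [h3, h4, if_false]
      exact h2
  | cat a b iha ihb =>
    obtain ⟨f, hf⟩ := iha o
    obtain ⟨g, hg⟩ := ihb (o + a.len)
    refine ⟨fun x => if x < o + a.len then f x else g x, ?_⟩
    intro p q h
    rcases h with h | h
    · have h1 := pairIn_range h
      have h3 : p < o + a.len := by omega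
      have h4 : q < o + a.len := by omega
      simp only [h3, h4, if_true]
      exact hf p q h
    · have h1 := pairIn_range h
      have h3 : ¬ (p < o + a.len) := by omega
      have h4 : ¬ (q < o + a.len) := by omega
      simp only [h3, h4, if_false]
      exact hg p q h

/-- `k` nested pairs around `a` -/
def wrapn : ℕ → Dk → Dk
  | 0, a => a
  | k + 1, a => pair (wrapn k a)

theorem wrapn_len (k : ℕ) (a : Dk) : (wrapn k a).len = a.len + 2 * k := by
  induction k with
  | zero => rfl
  | succ k ih => simp only [wrapn, len, ih]; ring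

theorem wrapn_inner {k : ℕ} {a : Dk} {o p q : ℕ} (h : a.PairIn (o + k) p q) :
    (wrapn k a).PairIn o p q := by
  induction k generalizing o with
  | zero => exact h
  | succ k ih =>
    right
    apply ih
    convert h using 1; ring

theorem wrapn_outer {k : ℕ} {a : Dk} {o i : ℕ} (hi : i < k) :
    (wrapn k a).PairIn o (o + i) (o + a.len + 2 * k - 1 - i) := by
  induction k generalizing o i with
  | zero => omega
  | succ k ih =>
    rcases i with _ | i
    · left
      rw [wrapn_len]
      omega
    · right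
      have := ih (o := o + 1) (i := i) (by omega)
      convert this using 1 <;> omega

/-- the core structures -/
def core (B : ℕ) : ℕ → Dk
  | 0 => wrapn B nil
  | h + 1 => cat (wrapn B (core B h)) (cat (wrapn B (core B h)) (wrapn B (core B h)))

/-- length constants -/
def cst : ℕ → ℕ
  | 0 => 2
  | h + 1 => 3 * (cst h + 2)

theorem core_len (B h : ℕ) : (core B h).len = cst h * B := by
  induction h with
  | zero => simp [core, wrapn_len, len, cst]
  | succ h ih =>
    simp only [core, len, wrapn_len, ih, cst]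
    ring

end Dk

/-- types by position -/
def ty : ℕ → List Bool → (ℕ → Bool) → List (Bool × Bool)
  | _, [], _ => []
  | o, b :: s, κ => (b, κ o) :: ty (o + 1) s κ

theorem ty_length (o : ℕ) (s : List Bool) (κ : ℕ → Bool) : (ty o s κ).length = s.length := by
  induction s generalizing o with
  | nil => rfl
  | cons b s ih => simp [ty, ih]

theorem ty_append (o : ℕ) (s t : List Bool) (κ : ℕ → Bool) :
    ty o (s ++ t) κ = ty o s κ ++ ty (o + s.length) t κ := by
  induction s generalizing o with
  | nil => simp [ty]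
  | cons b s ih =>
    simp only [List.cons_append, ty, ih, List.length_cons]
    congr 3
    ring

theorem ty_get (o : ℕ) (s : List Bool) (κ : ℕ → Bool) (p : ℕ) :
    (ty o s κ)[p]? = s[p]?.map (fun b => (b, κ (o + p))) := by
  induction s generalizing o p with
  | nil => simp [ty]
  | cons b s ih =>
    cases p with
    | zero => simp [ty]
    | succ p =>
      simp only [ty, List.getElem?_cons_succ, ih]
      congr 2
      ext b
      · rfl
      · simp only
        congr 1
        ring

theorem run_ty (D : Dk) (o : ℕ) (κ : ℕ → Bool) (st : List Bool) (w : List (Bool × Bool))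
    (r : List Bool) :
    run st (ty o D.word κ ++ w) = some r ↔
      (∀ p q, D.PairIn o p q → κ p = κ q) ∧ run st w = some r := by
  induction D generalizing o st w r with
  | nil => simp [Dk.word, ty, Dk.PairIn]
  | pair a ih =>
    simp only [Dk.word, ty, ty_append, List.cons_append, List.append_assoc, run]
    rw [ih]
    simp only [List.nil_append, Dk.word_length, run]
    constructor
    · rintro ⟨h1, h2⟩
      split_ifs at h2 with h3
      refine ⟨?_, h2⟩
      rintro p q (⟨rfl, rfl⟩ | h)
      · rw [← h3]; congr 1; ring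
      · exact h1 p q h
    · rintro ⟨h1, h2⟩
      have h3 : κ (o + 1 + a.len) = κ o := by
        rw [h1 o (o + a.len + 1) (Or.inl ⟨rfl, rfl⟩)]; congr 1; ring
      rw [if_pos h3]
      exact ⟨fun p q h => h1 p q (Or.inr h), h2⟩
  | cat a b iha ihb =>
    simp only [Dk.word, ty_append, List.append_assoc, Dk.word_length]
    rw [iha, ihb]
    constructor
    · rintro ⟨h1, h2, h3⟩
      refine ⟨?_, h3⟩
      rintro p q (h | h)
      · exact h1 p q h
      · exact h2 p q h
    · rintro ⟨h1, h2⟩
      exact ⟨fun p q h => h1 p q (Or.inl h), fun p q h => h1 p q (Or.inr h), h2⟩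

/-- number of switches of `s` in an interval -/
def sw (s : ℕ → Bool) (x y : ℕ) : ℕ := ((Finset.Ico x y).filter (fun p => s p ≠ s (p + 1))).card

theorem exists_switch {s : ℕ → Bool} {x y : ℕ} (hxy : x ≤ y) (h : s x ≠ s y) :
    ∃ p, x ≤ p ∧ p < y ∧ s p ≠ s (p + 1) := by
  by_contra hcon
  push Not at hcon
  apply h
  induction y, hxy using Nat.le_induction with
  | base => rfl
  | succ y hy ih =>
    by_cases h1 : s x = s y
    · rw [h1]; exact hcon y hy (by omega)
    · exact absurd (ih h1 (fun p hp1 hp2 => hcon p hp1 (by omega))) h1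

theorem exists_switch' {s : ℕ → Bool} {x y : ℕ} (h : s x ≠ s y) :
    ∃ p, min x y ≤ p ∧ p < max x y ∧ s p ≠ s (p + 1) := by
  rcases le_total x y with hxy | hxy
  · obtain ⟨p, h1, h2, h3⟩ := exists_switch hxy h
    exact ⟨p, by omega, by omega, h3⟩
  · obtain ⟨p, h1, h2, h3⟩ := exists_switch hxy (Ne.symm h)
    exact ⟨p, by omega, by omega, h3⟩

theorem sw_pos {s : ℕ → Bool} {x y : ℕ} (h : 1 ≤ sw s x y) :
    (∃ p, x ≤ p ∧ p ≤ y ∧ s p = true) ∧ (∃ p, x ≤ p ∧ p ≤ y ∧ s p = false) := by
  obtain ⟨p, hp⟩ := Finset.card_pos.1 h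
  simp only [Finset.mem_filter, Finset.mem_Ico] at hp
  obtain ⟨⟨h1, h2⟩, h3⟩ := hp
  cases h4 : s p <;> cases h5 : s (p + 1)
  · rw [h4, h5] at h3; exact absurd rfl h3
  · exact ⟨⟨p + 1, by omega, by omega, h5⟩, ⟨p, h1, by omega, h4⟩⟩
  · exact ⟨⟨p, h1, by omega, h4⟩, ⟨p + 1, by omega, by omega, h5⟩⟩
  · rw [h4, h5] at h3; exact absurd rfl h3

theorem extra_switch {s : ℕ → Bool} {o L ob w xb c α β u v : ℕ}
    (hob : o ≤ ob) (hobL : ob + w ≤ o + L)
    (hα : ob ≤ α) (hαx : α < xb) (hβ : xb + c ≤ β) (hβw : β < ob + w) (hαβ : s α = s β)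
    (hu : o ≤ u) (huL : u < o + L) (huo : u < ob ∨ ob + w ≤ u)
    (hv : o ≤ v) (hvL : v < o + L) (hvo : v < ob ∨ ob + w ≤ v)
    (huv : s u ≠ s v) :
    ∃ p, o ≤ p ∧ p < o + L - 1 ∧ ¬ (xb ≤ p ∧ p < xb + c - 1) ∧ s p ≠ s (p + 1) := by
  have aux : ∀ x y : ℕ, s x ≠ s y → o ≤ x → x < o + L → o ≤ y → y < o + L →
      ((x < xb ∧ y < xb) ∨ (xb + c ≤ x ∧ xb + c ≤ y)) →
      ∃ p, o ≤ p ∧ p < o + L - 1 ∧ ¬ (xb ≤ p ∧ p < xb + c - 1) ∧ s p ≠ s (p + 1) := by
    intro x y hne h1 h2 h3 h4 h5
    obtain ⟨p, hp1, hp2, hp3⟩ := exists_switch' hne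
    exact ⟨p, by omega, by omega, by omega, hp3⟩
  rcases huo with huo | huo <;> rcases hvo with hvo | hvo
  · exact aux u v huv hu huL hv hvL (by omega)
  · -- u left, v right
    by_cases h : s u = s α
    · have : s v ≠ s β := by rw [← hαβ, ← h]; exact Ne.symm huv
      exact aux v β this hv hvL (by omega) (by omega) (by omega)
    · exact aux u α h hu huL (by omega) (by omega) (by omega)
  · by_cases h : s v = s α
    · have : s u ≠ s β := by rw [← hαβ, ← h]; exact huv
      exact aux u β this hu huL (by omega) (by omega) (by omega)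
    · exact aux v α h hv hvL (by omega) (by omega) (by omega)
  · exact aux u v huv hu huL hv hvL (by omega)

theorem sw_lt {s : ℕ → Bool} {x y x' y' p : ℕ} (h1 : x ≤ x') (h2 : y' ≤ y)
    (hp : x ≤ p) (hp' : p < y) (hn : ¬ (x' ≤ p ∧ p < y')) (hs : s p ≠ s (p + 1)) :
    sw s x' y' + 1 ≤ sw s x y := by
  have hsub : insert p ((Finset.Ico x' y').filter (fun p => s p ≠ s (p + 1))) ⊆
      (Finset.Ico x y).filter (fun p => s p ≠ s (p + 1)) := by
    intro q hq
    simp only [Finset.mem_insert, Finset.mem_filter, Finset.mem_Ico] at hq ⊢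
    rcases hq with rfl | ⟨⟨h3, h4⟩, h5⟩
    · exact ⟨⟨hp, hp'⟩, hs⟩
    · exact ⟨⟨by omega, by omega⟩, h5⟩
  have hcard := Finset.card_le_card hsub
  rw [Finset.card_insert_of_notMem (by
    simp only [Finset.mem_filter, Finset.mem_Ico, not_and]
    intro h; exact absurd h hn)] at hcard
  exact hcard

/-- The topological lemma. -/
theorem topo {st : ℕ → ℕ → Bool} {ρ B N Te : ℕ} (hB : ρ < 2 * B)
    (mono : ∀ t p, st (t + 1) p = true → st t p = true)
    (init : ∀ p < N, st 0 p = true) (fin : ∀ p, st Te p = false)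
    (loss : ∀ t x, ¬ ∀ i ≤ ρ, st t (x + i) = true ∧ st (t + 1) (x + i) = false)
    (h o : ℕ) (ho : o + (Dk.core B h).len ≤ N) :
    (∃ t, h + 1 ≤ sw (st t) o (o + (Dk.core B h).len - 1)) ∨
    (∃ t o' e, ∀ i < B, (Dk.core B h).PairIn o (o' + i) (e - i) ∧
      st t (o' + i) ≠ st t (e - i)) := by
  have mono' : ∀ t t' p, t ≤ t' → st t' p = true → st t p = true := by
    intro t t' p htt
    induction t', htt using Nat.le_induction with
    | base => exact id
    | succ t' ht ih => exact fun h => ih (mono t' p h)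
  have mono'' : ∀ t t' p, t ≤ t' → st t p = false → st t' p = false := by
    intro t t' p htt hf
    by_contra hcon
    have := mono' t t' p htt (by simpa using hcon)
    rw [hf] at this; cases this
  induction h generalizing o with
  | zero =>
    left
    have hlen : (Dk.core B 0).len = 2 * B := by simp [Dk.core_len, Dk.cst]
    rw [hlen] at ho ⊢
    -- first time with a false position in the interval
    have hex : ∃ t, ∃ p, o ≤ p ∧ p < o + 2 * B ∧ st t p = false :=
      ⟨Te, o, le_refl _, by omega, fin _⟩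
    classical
    obtain ⟨p, hp1, hp2, hp3⟩ := Nat.find_spec hex
    set t := Nat.find hex with ht
    have htpos : t ≠ 0 := by
      intro h0
      rw [h0] at hp3
      rw [init p (by omega)] at hp3
      cases hp3
    obtain ⟨t', ht'⟩ := Nat.exists_eq_succ_of_ne_zero htpos
    have hall : ∀ q, o ≤ q → q < o + 2 * B → st t' q = true := by
      intro q hq1 hq2
      by_contra hcon
      exact Nat.find_min hex (m := t') (by omega) ⟨q, hq1, hq2, by simpa using hcon⟩
    have hex2 : ∃ q, o ≤ q ∧ q < o + 2 * B ∧ st t q = true := by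
      by_contra hcon
      push Not at hcon
      apply loss t' o
      intro i hi
      refine ⟨hall _ (by omega) (by omega), ?_⟩
      have := hcon (o + i) (by omega) (by omega)
      rw [ht'] at this
      simpa using this
    obtain ⟨q, hq1, hq2, hq3⟩ := hex2
    have hne : st t p ≠ st t q := by rw [hp3, hq3]; simp
    obtain ⟨x, hx1, hx2, hx3⟩ := exists_switch' hne
    refine ⟨t, Finset.card_pos.2 ⟨x, ?_⟩⟩
    simp only [Finset.mem_filter, Finset.mem_Ico]
    exact ⟨⟨by omega, by omega⟩, hx3⟩
  | succ h ih =>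
    by_cases hcut : ∃ t o' e, ∀ i < B, (Dk.core B (h + 1)).PairIn o (o' + i) (e - i) ∧
      st t (o' + i) ≠ st t (e - i)
    · exact Or.inr hcut
    left
    set c := (Dk.core B h).len with hc
    have hw : (Dk.wrapn B (Dk.core B h)).len = c + 2 * B := Dk.wrapn_len _ _
    have hL : (Dk.core B (h + 1)).len = 3 * (c + 2 * B) := by
      simp only [Dk.core, Dk.len, hw]; ring
    rw [hL] at ho ⊢
    have hpair : ∀ j < 3, ∀ p q, (Dk.wrapn B (Dk.core B h)).PairIn (o + j * (c + 2 * B)) p q →
        (Dk.core B (h + 1)).PairIn o p q := by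
      intro j hj p q hpq
      simp only [Dk.core, Dk.PairIn, hw]
      interval_cases j
      · left; simpa using hpq
      · right; left; simpa using hpq
      · right; right
        convert hpq using 1; ring
    have hch : ∀ j < 3, ∃ t, h + 1 ≤
        sw (st t) (o + j * (c + 2 * B) + B) (o + j * (c + 2 * B) + B + c - 1) := by
      intro j hj
      have hj' : j * (c + 2 * B) ≤ 2 * (c + 2 * B) := Nat.mul_le_mul_right _ (by omega)
      rcases ih (o + j * (c + 2 * B) + B) (by omega) with h1 | ⟨t, o', e, h1⟩
      · exact h1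
      · exfalso
        exact hcut ⟨t, o', e, fun i hi =>
          ⟨hpair j hj _ _ (Dk.wrapn_inner (h1 i hi).1), (h1 i hi).2⟩⟩
    choose! tm htm using hch
    have hsort : ∃ a < 3, ∃ b < 3, ∃ d < 3, a ≠ b ∧ d ≠ b ∧ tm a ≤ tm b ∧ tm b ≤ tm d := by
      rcases le_total (tm 0) (tm 1) with h01 | h01 <;>
      rcases le_total (tm 1) (tm 2) with h12 | h12 <;>
      rcases le_total (tm 0) (tm 2) with h02 | h02
      · exact ⟨0, by omega, 1, by omega, 2, by omega, by omega, by omega, h01, h12⟩
      · exact ⟨0, by omega, 1, by omega, 2, by omega, by omega, by omega, h01, h12⟩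
      · exact ⟨0, by omega, 2, by omega, 1, by omega, by omega, by omega, h02, h12⟩
      · exact ⟨2, by omega, 0, by omega, 1, by omega, by omega, by omega, h02, h01⟩
      · exact ⟨1, by omega, 0, by omega, 2, by omega, by omega, by omega, h01, h02⟩
      · exact ⟨1, by omega, 2, by omega, 0, by omega, by omega, by omega, h12, h02⟩
      · exact ⟨2, by omega, 1, by omega, 0, by omega, by omega, by omega, h12, h01⟩
      · exact ⟨2, by omega, 1, by omega, 0, by omega, by omega, by omega, h12, h01⟩
    obtain ⟨a, ha, b, hb, d, hd, hab, hdb, hta, htd⟩ := hsort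
    have hBpos : 0 < B := by omega
    have sep : ∀ x y : ℕ, x ≠ y → ∀ W : ℕ, x * W + W ≤ y * W ∨ y * W + W ≤ x * W := by
      intro x y hxy W
      rcases lt_or_gt_of_ne hxy with hlt | hgt
      · left
        calc x * W + W = (x + 1) * W := by ring
          _ ≤ y * W := Nat.mul_le_mul_right _ hlt
      · right
        calc y * W + W = (y + 1) * W := by ring
          _ ≤ x * W := Nat.mul_le_mul_right _ hgt
    have bd : ∀ x < 3, ∀ W : ℕ, x * W ≤ 2 * W := fun x hx W => Nat.mul_le_mul_right _ (by omega)
    set W := c + 2 * B with hW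
    have sab := sep a b hab W
    have sdb := sep d b hdb W
    have ba := bd a ha W
    have bb := bd b hb W
    have bdd := bd d hd W
    obtain ⟨-, u, hu1, hu2, hu3⟩ := sw_pos (le_trans (by omega) (htm a ha))
    obtain ⟨⟨v, hv1, hv2, hv3⟩, -⟩ := sw_pos (le_trans (by omega) (htm d hd))
    have hu4 := mono'' _ _ _ hta hu3
    have hv4 := mono' _ _ _ htd hv3
    -- an uncut pair of node b
    have hunc : ∃ i < B, st (tm b) (o + b * W + i) = st (tm b) (o + b * W + c + 2 * B - 1 - i) := by
      by_contra hcon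
      push Not at hcon
      exact hcut ⟨tm b, o + b * W, o + b * W + c + 2 * B - 1, fun i hi =>
        ⟨hpair b hb _ _ (Dk.wrapn_outer hi), hcon i hi⟩⟩
    obtain ⟨i, hi, hunc⟩ := hunc
    have hc0 : 1 ≤ c ∨ c = 0 := by omega
    obtain ⟨p, hp1, hp2, hp3, hp4⟩ := extra_switch (s := st (tm b)) (o := o) (L := 3 * W)
      (ob := o + b * W) (w := W) (xb := o + b * W + B) (c := c) (α := o + b * W + i)
      (β := o + b * W + c + 2 * B - 1 - i) (u := u) (v := v)
      (by omega) (by omega) (by omega) (by omega) (by omega) (by omega) hunc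
      (by omega) (by omega) (by omega) (by omega) (by omega) (by omega)
      (by rw [hu4, hv4]; simp)
    refine ⟨tm b, ?_⟩
    have := sw_lt (s := st (tm b)) (x := o) (y := o + 3 * W - 1) (x' := o + b * W + B)
      (y' := o + b * W + B + c - 1) (p := p) (by omega) (by omega) hp1 hp2 hp3 hp4
    have h5 := htm b hb
    omega

end PoolH48.CR
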