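import Pool.Agent.H48.CR.Gram
import Pool.Agent.H48.CR.Lang
import Pool.Agent.H48.CR.Topo

namespace PoolH48.CR

open Relation
open List (replicate)

/-- the brackets of a word -/
def br (w : List Tm) : List (Bool × Bool) := w.reduceOption

theorem br_append (u v : List Tm) : br (u ++ v) = br u ++ br v := by
  simp [br, List.reduceOption_append]

theorem br_nil : br [] = [] := rfl

theorem br_none (w : List Tm) : br (none :: w) = br w := by
  simp [br, List.reduceOption_cons_of_none]

theorem br_some (σ : Bool × Bool) (w : List Tm) : br (some σ :: w) = σ :: br w := by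
  simp [br, List.reduceOption_cons_of_some]

theorem br_rep (n : ℕ) : br (replicate n none) = [] := by
  induction n with
  | zero => rfl
  | succ n ih => rw [List.replicate_succ, br_none, ih]

theorem br_enc (n : ℕ) (d : List (Bool × Bool)) : br (enc n d) = d := by
  induction d generalizing n with
  | nil => rfl
  | cons σ d ih => rw [enc, br_append, br_rep, br_some, ih]; rfl

variable {G : ProgGrammar Tm}

/-- number of brackets of an item -/
def nb (it : Item G) : ℕ := (br (yld it)).length

/-- which brackets are covered by long items -/
def mask (ℓ : List (Item G)) : List Bool :=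
  ℓ.flatMap (fun it => replicate (nb it) (decide (2 ≤ nb it)))

theorem mask_append (a b : List (Item G)) : mask (a ++ b) = mask a ++ mask b := by
  simp [mask]

theorem mask_cons (x : Item G) (b : List (Item G)) :
    mask (x :: b) = replicate (nb x) (decide (2 ≤ nb x)) ++ mask b := by
  simp [mask]

theorem mask_length (ℓ : List (Item G)) : (mask ℓ).length = (br (yl ℓ)).length := by
  induction ℓ with
  | nil => rfl
  | cons x ℓ ih => rw [mask_cons, yl_cons, br_append, List.length_append, List.length_append,
      ih, List.length_replicate, nb]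

/-- status -/
def stt (ℓ : List (Item G)) (p : ℕ) : Bool := (mask ℓ).getD p false

theorem mem_mask_true {ℓ : List (Item G)} (h : true ∈ mask ℓ) : 2 ≤ (mask ℓ).length := by
  induction ℓ with
  | nil => simp [mask] at h
  | cons x ℓ ih =>
    rw [mask_cons] at h ⊢
    rw [List.length_append, List.length_replicate]
    rcases List.mem_append.1 h with h | h
    · have := List.eq_of_mem_replicate h
      simp at this
      omega
    · have := ih h
      omega

theorem count_false (ℓ : List (Item G)) : (mask ℓ).count false ≤ ℓ.length := by
  induction ℓ with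
  | nil => simp [mask]
  | cons x ℓ ih =>
    rw [mask_cons, List.count_append, List.length_cons]
    have : (replicate (nb x) (decide (2 ≤ nb x))).count false ≤ 1 := by
      rw [List.count_replicate]
      split_ifs with h
      · simp at h; omega
      · omega
    omega

theorem run_false {M : List Bool} {x ρ : ℕ} (h : ∀ i ≤ ρ, M[x + i]? = some false) :
    ρ + 1 ≤ M.count false := by
  have h1 : (M.drop x).take (ρ + 1) = replicate (ρ + 1) false := by
    apply List.ext_getElem?
    intro i
    by_cases hi : i < ρ + 1
    · rw [List.getElem?_take_of_lt hi, List.getElem?_drop, h i (by omega),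
        List.getElem?_replicate, if_pos hi]
    · rw [List.getElem?_eq_none (by rw [List.length_take]; omega),
        List.getElem?_eq_none (by rw [List.length_replicate]; omega)]
  have h2 : ((M.drop x).take (ρ + 1)).Sublist M :=
    (List.take_sublist _ _).trans (List.drop_sublist _ _)
  have h3 := h2.count_le false
  rw [h1, List.count_replicate_self] at h3
  exact h3

theorem nb_inl (A : G.N) (its : List (Item G)) :
    nb (Sum.inl (A, yl its) : Item G) = (mask its).length := by
  rw [mask_length]; rfl

theorem rfn_cases {ρ : ℕ} {ℓ ℓ' : List (Item G)} (h : Rfn ρ ℓ ℓ') :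
    ∃ M1 b M2 M3, mask ℓ = M1 ++ (replicate M2.length b ++ M3) ∧ mask ℓ' = M1 ++ (M2 ++ M3) ∧
      (true ∈ M2 → b = true) ∧ M2.count false ≤ ρ := by
  obtain ⟨l₁, A, its, l₂, rfl, rfl, h3⟩ := h
  refine ⟨mask l₁, decide (2 ≤ (mask its).length), mask its, mask l₂, ?_, ?_, ?_, ?_⟩
  · rw [mask_append, mask_cons, nb_inl]
  · rw [mask_append, mask_append, List.append_assoc]
  · intro h
    simpa using mem_mask_true h
  · exact (count_false its).trans h3

theorem getD_append' (A B : List Bool) (p : ℕ) :
    (A ++ B).getD p false = if p < A.length then A.getD p false else B.getD (p - A.length) false := by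
  split_ifs with h
  · exact List.getD_append _ _ _ _ h
  · exact List.getD_append_right _ _ _ _ (by omega)

theorem rfn_mono {ρ : ℕ} {ℓ ℓ' : List (Item G)} (h : Rfn ρ ℓ ℓ') (p : ℕ)
    (hp : stt ℓ' p = true) : stt ℓ p = true := by
  obtain ⟨M1, b, M2, M3, e1, e2, h3, -⟩ := rfn_cases h
  unfold stt at hp ⊢
  rw [e2, getD_append'] at hp
  rw [e1, getD_append']
  split_ifs at hp ⊢ with h4
  · exact hp
  · rw [getD_append'] at hp ⊢
    rw [List.length_replicate]
    split_ifs at hp ⊢ with h5
    · have h6 : true ∈ M2 := by
        rw [List.getD_eq_getElem _ _ h5] at hp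
        rw [← hp]
        exact List.getElem_mem h5
      rw [List.getD_eq_getElem _ _ (by rw [List.length_replicate]; exact h5),
        List.getElem_replicate]
      exact h3 h6
    · exact hp

theorem rfn_loss {ρ : ℕ} {ℓ ℓ' : List (Item G)} (h : Rfn ρ ℓ ℓ') (x : ℕ) :
    ¬ ∀ i ≤ ρ, stt ℓ (x + i) = true ∧ stt ℓ' (x + i) = false := by
  obtain ⟨M1, b, M2, M3, e1, e2, h3, h4⟩ := rfn_cases h
  intro hall
  have key : ∀ i ≤ ρ, M1.length ≤ x + i ∧ M2[x + i - M1.length]? = some false := by
    intro i hi
    obtain ⟨h5, h6⟩ := hall i hi
    unfold stt at h5 h6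
    rw [e2, getD_append'] at h6
    rw [e1, getD_append'] at h5
    split_ifs at h5 h6 with h7
    · rw [h5] at h6; cases h6
    · refine ⟨by omega, ?_⟩
      rw [getD_append'] at h5 h6
      rw [List.length_replicate] at h5
      split_ifs at h5 h6 with h8
      · rw [List.getD_eq_getElem _ _ h8] at h6
        rw [List.getElem?_eq_getElem h8, h6]
      · rw [h5] at h6; cases h6
  have h0 := (key 0 (by omega)).1
  have := run_false (M := M2) (x := x - M1.length) (ρ := ρ) (fun i hi => by
    have := (key i hi).2
    rw [← this]
    congr 1
    omega)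
  omega

/-- switch count of lists -/
def swl : Bool → List Bool → ℕ
  | _, [] => 0
  | b, x :: l => (if b = x then 0 else 1) + swl x l

theorem swl_le (b b' : Bool) (l : List Bool) : swl b l ≤ 1 + swl b' l := by
  cases l with
  | nil => simp [swl]
  | cons x l => simp only [swl]; split_ifs <;> omega

theorem swl_rep (b : Bool) (n : ℕ) (l : List Bool) : swl b (replicate n b ++ l) = swl b l := by
  induction n with
  | zero => rfl
  | succ n ih => simp [List.replicate_succ, swl, ih]

theorem swl_rep_le (b b' : Bool) (n : ℕ) (l : List Bool) :
    swl b (replicate n b' ++ l) ≤ 2 + swl b l := by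
  cases n with
  | zero => simp
  | succ n =>
    rw [List.replicate_succ, List.cons_append, swl, swl_rep]
    have := swl_le b' b l
    split_ifs <;> omega

/-- long items -/
def longs (ℓ : List (Item G)) : List (Item G) := ℓ.filter (fun it => decide (2 ≤ nb it))

theorem swl_mask (ℓ : List (Item G)) : swl false (mask ℓ) ≤ 2 * (longs ℓ).length := by
  induction ℓ with
  | nil => simp [mask, swl]
  | cons x ℓ ih =>
    rw [mask_cons]
    by_cases h : 2 ≤ nb x
    · have h1 : (longs (x :: ℓ)).length = (longs ℓ).length + 1 := by
        simp [longs, List.filter_cons, h]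
      have h2 := swl_rep_le false (decide (2 ≤ nb x)) (nb x) (mask ℓ)
      omega
    · have h1 : (longs (x :: ℓ)).length = (longs ℓ).length := by
        simp [longs, List.filter_cons, h]
      have h2 : decide (2 ≤ nb x) = false := by simpa using h
      rw [h2, swl_rep]
      omega

theorem sw_shift (s : ℕ → Bool) (n : ℕ) :
    sw s 0 (n + 1) ≤ (if s 0 = s 1 then 0 else 1) + sw (fun p => s (p + 1)) 0 n := by
  unfold sw
  have h1 : (Finset.Ico 0 (n + 1)).filter (fun p => s p ≠ s (p + 1)) ⊆
      (if s 0 = s 1 then ∅ else {0}) ∪
        ((Finset.Ico 0 n).filter (fun p => s (p + 1) ≠ s (p + 1 + 1))).image (· + 1) := by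
    intro p hp
    simp only [Finset.mem_filter, Finset.mem_Ico] at hp
    obtain ⟨⟨-, h1⟩, h2⟩ := hp
    cases p with
    | zero =>
      simp only [Nat.zero_add] at h2
      simp [h2]
    | succ p =>
      simp only [Finset.mem_union, Finset.mem_image, Finset.mem_filter, Finset.mem_Ico]
      right
      exact ⟨p, ⟨⟨by omega, by omega⟩, h2⟩, rfl⟩
  refine (Finset.card_le_card h1).trans ((Finset.card_union_le _ _).trans ?_)
  apply Nat.add_le_add
  · split_ifs <;> simp
  · exact Finset.card_image_le

theorem sw_le_swl (l : List Bool) (b : Bool) :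
    sw (fun p => l.getD p false) 0 (l.length - 1) ≤ swl b l := by
  induction l generalizing b with
  | nil => simp [sw, swl]
  | cons x l ih =>
    rcases l with _ | ⟨y, l⟩
    · simp [sw]
    · have h1 := sw_shift (fun p => (x :: y :: l).getD p false) l.length
      have h2 := ih x
      simp only [List.length_cons, Nat.add_sub_cancel] at h2 ⊢
      simp only [List.getD_cons_succ, List.getD_cons_zero, zero_add] at h1
      have h3 : sw (fun p => (x :: y :: l).getD (p + 1) false) 0 l.length =
          sw (fun p => (y :: l).getD p false) 0 l.length := by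
        simp only [List.getD_cons_succ]
      rw [show swl b (x :: y :: l) = (if b = x then 0 else 1) + swl x (y :: l) from rfl]
      have h4 : swl x (y :: l) = (if x = y then 0 else 1) + swl y l := rfl
      have h5 := ih y
      simp only [List.length_cons, Nat.add_sub_cancel] at h5
      have h6 : swl y (y :: l) = swl y l := by simp [swl]
      split_ifs at h1 h4 ⊢ <;> omega

end PoolH48.CR
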