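import Pool.Agent.H48.CR.Zip

namespace PoolH48.CR

open List (replicate)

/-- The stack machine for two types of brackets. -/
def run : List Bool → List (Bool × Bool) → Option (List Bool)
  | st, [] => some st
  | st, (true, x) :: w => run (x :: st) w
  | [], (false, _) :: _ => none
  | y :: st, (false, x) :: w => if x = y then run st w else none

/-- A block: number of letters, bracket, carry. -/
abbrev Blk := ℕ × (Bool × Bool) × Bool

/-- forward encoding -/
def encB : List Blk → List Tok
  | [] => []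
  | (n, σ, c) :: bs => replicate n none ++ some (σ, c) :: encB bs

/-- reversed encoding -/
def revenc : List Blk → List Tok
  | [] => []
  | (n, σ, c) :: rb => some (σ, c) :: (replicate n none ++ revenc rb)

/-- chain condition -/
def Ch : ℕ → Bool → List Blk → Prop
  | _, _, [] => True
  | n, c, (n', _, c') :: bs => n' = n + c.toNat ∧ Ch n' c' bs

/-- reversed chain condition -/
def RC : ℕ → List Blk → Prop
  | _, [] => True
  | x, (n, _, c) :: rb => x = n + c.toNat ∧ RC n rb

/-- brackets of blocks -/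
def sg (bs : List Blk) : List (Bool × Bool) := bs.map (fun b => b.2.1)

/-- The backward-closed invariant. -/
def Inv : Sy → List Tok → List Tok → Prop
  | .s, U, V => ∀ k, U = replicate k none → V ≠ [] →
      ∃ n σ c bs, V = encB ((n, σ, c) :: bs) ∧ Ch (n + 2 * k) c bs ∧
        run [] (σ :: sg bs) = some []
  | .q e, U, V => ∀ k rb, U = replicate k none ++ revenc rb →
      ∃ n σ c bs, V = encB ((n, σ, c) :: bs) ∧ n % 2 = e.toNat ∧ RC (n / 2 + k) rb ∧
        Ch (n + 2 * k) c bs ∧ run [] ((sg rb).reverse ++ σ :: sg bs) = some []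
  | .p z, U, V => ∀ m rb, U = replicate m none ++ revenc rb → V ≠ [] →
      ∃ k σ c bs, V = encB ((k, σ, c) :: bs) ∧ (∀ e, z = some e → m % 2 = e.toNat) ∧
        RC (m + 2 * k) rb ∧ Ch (m / 2 + k) c bs ∧
        run [] ((sg rb).reverse ++ σ :: sg bs) = some []
  | .f, U, V => ∀ st : List Bool, U = st.map (fun x => some ((true, x), false)) →
      ∃ ds : List (Bool × Bool), V = encB (ds.map (fun d => (1, d, false))) ∧
        run st ds = some []
  | _, _, _ => False

theorem enc_none {V : List Tok} {n σ c bs} (h : none :: V = encB ((n, σ, c) :: bs)) :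
    ∃ n', n = n' + 1 ∧ V = encB ((n', σ, c) :: bs) := by
  cases n with
  | zero => simp [encB] at h
  | succ n => exact ⟨n, rfl, by simpa [encB, List.replicate_succ] using h⟩

theorem enc_some {V : List Tok} {n σ c σ' c' bs}
    (h : some (σ', c') :: V = encB ((n, σ, c) :: bs)) :
    n = 0 ∧ σ = σ' ∧ c = c' ∧ V = encB bs := by
  cases n with
  | zero =>
    simp [encB] at h
    exact ⟨rfl, h.1.1.symm, h.1.2.symm, h.2⟩
  | succ n => simp [encB, List.replicate_succ] at h

theorem enc_ne {V : List Tok} {bs} (h : V = encB bs) (hV : V ≠ []) :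
    ∃ n σ c bs', bs = (n, σ, c) :: bs' := by
  rcases bs with _ | ⟨⟨n, σ, c⟩, bs⟩
  · exact absurd h hV
  · exact ⟨n, σ, c, bs, rfl⟩

theorem rev_none {U : List Tok} {m rb} (h : none :: U = replicate m none ++ revenc rb) :
    ∃ m', m = m' + 1 ∧ U = replicate m' none ++ revenc rb := by
  cases m with
  | zero =>
    rcases rb with _ | ⟨⟨n, σ, c⟩, rb⟩
    · simp [revenc] at h
    · simp [revenc] at h
  | succ m => exact ⟨m, rfl, by simpa [List.replicate_succ] using h⟩

theorem rev_some {U : List Tok} {m rb σ c}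
    (h : some (σ, c) :: U = replicate m none ++ revenc rb) :
    m = 0 ∧ ∃ n rb', rb = (n, σ, c) :: rb' ∧ U = replicate n none ++ revenc rb' := by
  cases m with
  | zero =>
    rcases rb with _ | ⟨⟨n, σ', c'⟩, rb⟩
    · simp [revenc] at h
    · simp [revenc] at h
      obtain ⟨⟨rfl, rfl⟩, h⟩ := h
      exact ⟨rfl, n, rb, rfl, h⟩
  | succ m => simp [List.replicate_succ] at h

theorem rev_nil {m : ℕ} {rb : List Blk}
    (h : ([] : List Tok) = replicate m none ++ revenc rb) : m = 0 ∧ rb = [] := by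
  rcases m with _ | m
  · rcases rb with _ | ⟨⟨n, σ, c⟩, rb⟩
    · exact ⟨rfl, rfl⟩
    · simp [revenc] at h
  · simp [List.replicate_succ] at h

theorem inv_back {h U V h' U' V'} (H : M h U V h' U' V') (I : Inv h' U' V') : Inv h U V := by
  cases H
  case s1 V =>
    intro k hU _
    obtain ⟨n, σ, c, bs, e1, e2, e3⟩ := I (k + 1) (by simp [hU, List.replicate_succ]) (by simp)
    obtain ⟨n, rfl, e1⟩ := enc_none e1
    refine ⟨n + 3, σ, c, bs, ?_, ?_, e3⟩
    · simp [e1, encB, List.replicate_succ]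
    · convert e2 using 1; ring
  case s2 V σ c =>
    intro k hU _
    obtain ⟨n, σ2, c2, bs, e1, e2, e3, e4, e5⟩ := I 0 [(k + 1, σ, false)]
      (by simp [revenc, hU, List.replicate_succ])
    simp only [RC, sg, List.map_cons, List.map_nil, List.reverse_cons, List.reverse_nil,
      List.nil_append, List.cons_append, Bool.toNat_false] at e3 e5
    obtain ⟨n, rfl, e1⟩ := enc_none e1
    refine ⟨2, σ, c, (n + 1, σ2, c2) :: bs, ?_, ⟨?_, ?_⟩, ?_⟩
    · simp [e1, encB, List.replicate_succ]
    · omega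
    · simpa using e4
    · simpa [sg] using e5
  case s3 U V σ c =>
    intro k hU _
    obtain ⟨k, rfl⟩ : ∃ k', k = k' + 1 := by
      cases k with
      | zero => simp at hU
      | succ k => exact ⟨k, rfl⟩
    obtain ⟨n, σ2, c2, bs, e1, e2, e3, e4, e5⟩ := I 0 [(k + 1, σ, c)]
      (by simpa [revenc, List.replicate_succ] using hU)
    simp only [RC, sg, List.map_cons, List.map_nil, List.reverse_cons, List.reverse_nil,
      List.nil_append, List.cons_append] at e3 e5
    obtain ⟨n, rfl, e1⟩ := enc_none e1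
    refine ⟨1, σ, c, (n + 1, σ2, c2) :: bs, ?_, ⟨?_, ?_⟩, ?_⟩
    · simp [e1, encB, List.replicate_succ]
    · cases c <;> simp at e2 e3 ⊢ <;> omega
    · simpa using e4
    · simpa [sg] using e5
  case s4 x =>
    intro k hU _
    have hk : k = 0 := by
      cases k with
      | zero => rfl
      | succ k => simp [List.replicate_succ] at hU
    subst hk
    obtain ⟨ds, e1, e2⟩ := I [x] (by simp)
    refine ⟨1, (true, x), false, ds.map (fun d => (1, d, false)), ?_, ?_, ?_⟩
    · simp [e1, encB]
    · clear e1 e2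
      simp only [Nat.mul_zero, Nat.add_zero]
      induction ds with
      | nil => trivial
      | cons d ds ih => exact ⟨by simp, ih⟩
    · simp only [run]
      have : sg (ds.map (fun d => ((1 : ℕ), d, false))) = ds := by
        simp only [sg, List.map_map]
        exact List.map_id ds
      rw [this]; exact e2
  case q1 V e =>
    intro k rb hU
    obtain ⟨n, σ, c, bs, e1, e2, e3, e4, e5⟩ := I (k + 1) rb (by simp [hU, List.replicate_succ])
    obtain ⟨n, rfl, e1⟩ := enc_none e1
    refine ⟨n + 3, σ, c, bs, ?_, ?_, ?_, ?_, e5⟩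
    · simp [e1, encB, List.replicate_succ]
    · omega
    · convert e3 using 1; omega
    · convert e4 using 1; ring
  case q2 V σ c =>
    intro k rb hU
    obtain ⟨n, σ2, c2, bs, e1, e2, e3, e4, e5⟩ := I 0 ((k + 1, σ, false) :: rb)
      (by simp [revenc, hU, List.replicate_succ])
    simp only [RC, Bool.toNat_false] at e3
    obtain ⟨n, rfl, e1⟩ := enc_none e1
    refine ⟨2, σ, c, (n + 1, σ2, c2) :: bs, ?_, ?_, ?_, ⟨?_, ?_⟩, ?_⟩
    · simp [e1, encB, List.replicate_succ]
    · simp
    · convert e3.2 using 1; omega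
    · omega
    · simpa using e4
    · simpa [sg] using e5
  case q2e σ c =>
    intro k rb hU
    obtain ⟨n, σ2, c2, bs, e1, e2, e3, e4, e5⟩ := I (k + 1) rb
      (by simp [hU, List.replicate_succ]) (by simp)
    obtain ⟨rfl, rfl, rfl, e1⟩ := enc_some e1
    rcases bs with _ | ⟨⟨n, σ, c⟩, bs⟩
    swap
    · simp [encB] at e1
    refine ⟨2, σ2, c, [], ?_, ?_, ?_, ?_, ?_⟩
    · simp [encB, List.replicate_succ]
    · simp
    · convert e3 using 1; omega
    · trivial
    · simpa [sg] using e5
  case q3 V σ c =>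
    intro k rb hU
    obtain ⟨n, σ2, c2, bs, e1, e2, e3, e4, e5⟩ := I 0 ((k, σ, c) :: rb)
      (by simp [revenc, hU])
    simp only [RC] at e3
    obtain ⟨n, rfl, e1⟩ := enc_none e1
    refine ⟨1, σ, c, (n + 1, σ2, c2) :: bs, ?_, ?_, ?_, ⟨?_, ?_⟩, ?_⟩
    · simp [e1, encB, List.replicate_succ]
    · simp
    · convert e3.2 using 1; omega
    · cases c <;> simp at e2 e3 ⊢ <;> omega
    · simpa using e4
    · simpa [sg] using e5
  case q3e σ c =>
    intro k rb hU
    obtain ⟨n, σ2, c2, bs, e1, e2, e3, e4, e5⟩ := I k rb hU (by simp)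
    obtain ⟨rfl, rfl, rfl, e1⟩ := enc_some e1
    rcases bs with _ | ⟨⟨n, σ, c⟩, bs⟩
    swap
    · simp [encB] at e1
    refine ⟨1, σ2, c, [], ?_, ?_, ?_, ?_, ?_⟩
    · simp [encB, List.replicate_succ]
    · simp
    · convert e3 using 1; omega
    · trivial
    · simpa [sg] using e5
  case p1 U z =>
    intro m rb hU hV
    obtain ⟨m, rfl, hU1⟩ := rev_none hU
    obtain ⟨m, rfl, hU2⟩ := rev_none hU1
    obtain ⟨m, rfl, hU3⟩ := rev_none hU2
    obtain ⟨k, σ, c, bs, e1, e2, e3, e4, e5⟩ := I (m + 1) rb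
      (by simp [hU3, List.replicate_succ]) (by simp)
    obtain ⟨k, rfl, e0⟩ := enc_none e1
    refine ⟨k, σ, c, bs, e0, ?_, ?_, ?_, e5⟩
    · intro e he
      have := e2 e he
      omega
    · convert e3 using 1; ring
    · convert e4 using 1; omega
  case p2 U z σ c hz =>
    intro m rb hU hV
    obtain ⟨m, rfl, hU1⟩ := rev_none hU
    obtain ⟨m, rfl, hU2⟩ := rev_none hU1
    obtain ⟨rfl, n, rb, rfl, hU3⟩ := rev_some hU2
    obtain ⟨k, σ2, c2, bs, e1, e2, e3, e4, e5⟩ := I n rb hU3 (by simp)
    obtain ⟨rfl, rfl, rfl, e1a⟩ := enc_some e1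
    obtain ⟨n2, σ3, c3, bs, rfl⟩ := enc_ne e1a (by simp)
    obtain ⟨n2, rfl, e1b⟩ := enc_none e1a
    have e2' := e2 _ rfl
    simp only [Ch] at e4
    refine ⟨n2, σ3, c3, bs, e1b, ?_, ⟨?_, ?_⟩, ?_, ?_⟩
    · intro e he
      subst he
      cases e
      · simp
      · exact absurd rfl hz
    · omega
    · simpa using e3
    · convert e4.2 using 1; omega
    · simpa [sg] using e5
  case p3 U z σ c hz =>
    intro m rb hU hV
    obtain ⟨m, rfl, hU1⟩ := rev_none hU
    obtain ⟨rfl, n, rb, rfl, hU3⟩ := rev_some hU1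
    obtain ⟨k, σ2, c2, bs, e1, e2, e3, e4, e5⟩ := I n rb hU3 (by simp)
    obtain ⟨rfl, rfl, rfl, e1b⟩ := enc_some e1
    obtain ⟨n2, σ3, c3, bs, rfl⟩ := enc_ne e1b hV
    have e2' := e2 _ rfl
    simp only [Ch] at e4
    refine ⟨n2, σ3, c3, bs, e1b, ?_, ⟨?_, ?_⟩, ?_, ?_⟩
    · intro e he
      subst he
      cases e
      · exact absurd rfl hz
      · simp
    · cases c <;> simp at e2' e4 ⊢ <;> omega
    · simpa using e3
    · convert e4.2 using 1; omega
    · simpa [sg] using e5
  case p4 z hz =>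
    intro m rb hU hV
    obtain ⟨m, rfl, hU1⟩ := rev_none hU
    obtain ⟨m, rfl, hU2⟩ := rev_none hU1
    obtain ⟨rfl, rfl⟩ := rev_nil hU2
    obtain ⟨k, σ, c, bs, e1, e2, e3⟩ := I 0 rfl (by simp)
    obtain ⟨k, rfl, e0⟩ := enc_none e1
    refine ⟨k, σ, c, bs, e0, ?_, trivial, ?_, by simpa [sg] using e3⟩
    · intro e he
      subst he
      cases e
      · simp
      · exact absurd rfl hz
    · convert e2 using 1; omega
  case p5 z hz =>
    intro m rb hU hV
    obtain ⟨m, rfl, hU1⟩ := rev_none hU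
    obtain ⟨rfl, rfl⟩ := rev_nil hU1
    obtain ⟨k, σ, c, bs, e1, e2, e3⟩ := I 0 rfl hV
    refine ⟨k, σ, c, bs, e1, ?_, trivial, ?_, by simpa [sg] using e3⟩
    · intro e he
      subst he
      cases e
      · exact absurd rfl hz
      · simp
    · convert e2 using 1; omega
  case f1 x =>
    intro st hU
    obtain ⟨ds, e1, e2⟩ := I (x :: st) (by simp [hU])
    exact ⟨(true, x) :: ds, by simp [e1, encB], by simpa [run] using e2⟩
  case f2 x =>
    intro st hU
    rcases st with _ | ⟨y, st⟩
    · simp at hU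
    simp only [List.map_cons, List.cons.injEq, Option.some.injEq, Prod.mk.injEq, true_and,
      and_true] at hU
    obtain ⟨rfl, hU⟩ := hU
    obtain ⟨ds, e1, e2⟩ := I st hU
    exact ⟨(false, x) :: ds, by simp [e1, encB], by simpa [run] using e2⟩

theorem inv_of_acc {h U V} (H : Acc h U V) : Inv h U V := by
  induction H with
  | fin =>
    intro st hst
    have : st = [] := by
      rcases st with _ | ⟨x, st⟩
      · rfl
      · simp at hst
    subst this
    exact ⟨[], rfl, rfl⟩
  | step hM _ ih => exact inv_back hM ih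

end PoolH48.CR
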