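import Pool.Agent.H48.CR.Cut

namespace PoolH48.CR

open Relation
open List (replicate)

variable {G : ProgGrammar Tm}

/-- key of a nonterminal item -/
def key (c : G.N × List Tm) : G.N × Option (Option (Bool × Bool)) :=
  (c.1, if 2 ≤ (br c.2).length then none else some (br c.2).head?)

/-- compatibility of items -/
def Rel : Item G → Item G → Prop
  | .inr t, .inr t' => t = t'
  | .inl c, .inl c' => key c = key c'
  | _, _ => False

theorem align (ℓ : List (Item G)) (ms : Multiset (G.N × List Tm))
    (h : ms.map key = (nts ℓ).map key) : ∃ ℓ'', List.Forall₂ Rel ℓ ℓ'' ∧ nts ℓ'' = ms := by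
  induction ℓ generalizing ms with
  | nil =>
    have h0 : (nts ([] : List (Item G))) = 0 := rfl
    rw [h0, Multiset.map_zero, Multiset.map_eq_zero] at h
    exact ⟨[], .nil, by rw [h]; rfl⟩
  | cons x ℓ ih =>
    rcases x with c | t
    · rw [nts_cons_inl, Multiset.map_cons] at h
      have h1 : key c ∈ ms.map key := by rw [h]; simp
      rw [Multiset.mem_map] at h1
      obtain ⟨c', h2, h3⟩ := h1
      obtain ⟨ms', rfl⟩ := Multiset.exists_cons_of_mem h2
      rw [Multiset.map_cons, h3, Multiset.cons_inj_right] at h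
      obtain ⟨ℓ'', h4, h5⟩ := ih ms' h
      exact ⟨Sum.inl c' :: ℓ'', .cons h3.symm h4, by rw [nts_cons_inl, h5]⟩
    · rw [nts_cons_inr] at h
      obtain ⟨ℓ'', h4, h5⟩ := ih ms h
      exact ⟨Sum.inr t :: ℓ'', .cons rfl h4, by rw [nts_cons_inr, h5]⟩

theorem rel_shp {ℓ ℓ'' : List (Item G)} (h : List.Forall₂ Rel ℓ ℓ'') :
    ℓ''.map shp = ℓ.map shp := by
  induction h with
  | nil => rfl
  | cons h1 h2 ih =>
    rename_i a b l1 l2
    rw [List.map_cons, List.map_cons, ih]
    congr 1
    rcases a with a | a <;> rcases b with b | b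
    · have := congrArg Prod.fst h1
      simp only [key] at this
      simp [shp, this]
    · exact h1.elim
    · exact h1.elim
    · rw [show a = b from h1]

/-- location of a long item -/
def Loc (ℓ : List (Item G)) (A : G.N) (s n : ℕ) : Prop :=
  ∃ a y b, ℓ = a ++ Sum.inl (A, y) :: b ∧ 2 ≤ (br y).length ∧ s = (br (yl a)).length ∧
    n = (br y).length

theorem head_inj {l l' : List (Bool × Bool)} (h : l.length ≤ 1) (h' : l'.length ≤ 1)
    (e : l.head? = l'.head?) : l = l' := by
  rcases l with _ | ⟨x, _ | ⟨y, l⟩⟩ <;> rcases l' with _ | ⟨x', _ | ⟨y', l'⟩⟩ <;> simp_all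

theorem splice_pt {ℓ ℓ' : List (Item G)} {g : G.N → ℕ × ℕ}
    (hg : ∀ A s n, Loc ℓ A s n → g A = (s, n)) (hg' : ∀ A s n, Loc ℓ' A s n → g A = (s, n))
    {m m'' : List (Item G)} (hR : List.Forall₂ Rel m m'') (pre : List (Item G))
    (hpre : ℓ = pre ++ m) (hm : ∀ c ∈ nts m'', c ∈ nts ℓ') (p : ℕ) :
    (br (yl m''))[p]? = if (mask m).getD p false = true then
      (br (yl ℓ'))[(br (yl pre)).length + p]? else (br (yl m))[p]? := by
  induction hR generalizing pre p with
  | nil => simp [mask]
  | cons h1 h2 ih =>
    rename_i x x' m1 m1'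
    have hm' : ∀ c ∈ nts m1', c ∈ nts ℓ' := by
      intro c hc
      apply hm
      rw [mem_nts] at hc ⊢
      exact List.mem_cons_of_mem _ hc
    have claim : nb x' = nb x ∧ ∀ q < nb x, (br (yld x'))[q]? =
        if 2 ≤ nb x then (br (yl ℓ'))[(br (yl pre)).length + q]? else (br (yld x))[q]? := by
      rcases x with ⟨A, y⟩ | t <;> rcases x' with ⟨A', y'⟩ | t'
      · have h3 : key (G := G) (A, y) = key (A', y') := h1
        simp only [key, Prod.mk.injEq] at h3
        obtain ⟨rfl, h4⟩ := h3
        by_cases h5 : 2 ≤ (br y).length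
        · have h6 : 2 ≤ (br y').length := by
            by_contra h7
            rw [if_pos h5, if_neg h7] at h4
            cases h4
          have h7 := hg A _ _ ⟨pre, y, m1, hpre, h5, rfl, rfl⟩
          have h8 : (A, y') ∈ nts ℓ' := hm _ (by rw [nts_cons_inl]; simp)
          rw [mem_nts] at h8
          obtain ⟨a, b, hab⟩ := List.append_of_mem h8
          have h9 := hg' A _ _ ⟨a, y', b, hab, h6, rfl, rfl⟩
          rw [h7, Prod.mk.injEq] at h9
          obtain ⟨h9, h10⟩ := h9
          refine ⟨h10.symm, ?_⟩
          intro q hq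
          simp only [nb, yld] at hq ⊢
          rw [if_pos h5, hab, yl_append, yl_cons, br_append, br_append, h9,
            List.getElem?_append_right (by omega)]
          simp only [Nat.add_sub_cancel_left, yld]
          rw [List.getElem?_append_left (by omega)]
        · have h6 : ¬ 2 ≤ (br y').length := by
            intro h7
            rw [if_neg h5, if_pos h7] at h4
            cases h4
          rw [if_neg h5, if_neg h6, Option.some.injEq] at h4
          have h7 := head_inj (by omega) (by omega) h4
          refine ⟨by simp only [nb, yld, h7], ?_⟩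
          intro q hq
          simp only [nb, yld]
          rw [if_neg h5, h7]
      · exact h1.elim
      · exact h1.elim
      · obtain rfl : t = t' := h1
        refine ⟨rfl, ?_⟩
        intro q hq
        have := nb_inr (G := G) t
        rw [if_neg (by omega)]
    rw [yl_cons, br_append, yl_cons, br_append, mask_cons, getD_append', List.length_replicate]
    have hlen : (br (yld x')).length = nb x := claim.1
    have hlen' : (br (yld x)).length = nb x := rfl
    by_cases hp : p < nb x
    · rw [List.getElem?_append_left (by omega), List.getElem?_append_left (by omega), if_pos hp,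
        List.getD_eq_getElem _ _ (by rw [List.length_replicate]; exact hp),
        List.getElem_replicate]
      rw [claim.2 p hp]
      simp only [decide_eq_true_eq]
    · rw [List.getElem?_append_right (by omega), List.getElem?_append_right (by omega),
        if_neg hp, hlen, hlen']
      have h3 := ih (pre ++ [x]) (by rw [hpre]; simp) hm' (p - nb x)
      rw [h3]
      have h4 : (br (yl (pre ++ [x]))).length + (p - nb x) = (br (yl pre)).length + p := by
        rw [yl_append, br_append, List.length_append]
        have : (br (yl [x])).length = nb x := by simp [yl, nb]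
        omega
      rw [h4]

theorem splice {ℓ ℓ' : List (Item G)} {g : G.N → ℕ × ℕ}
    (hg : ∀ A s n, Loc ℓ A s n → g A = (s, n)) (hg' : ∀ A s n, Loc ℓ' A s n → g A = (s, n))
    {r : G.Lab} (h1 : Rch (ℓ.map shp) r) (h2 : Compl r (nts ℓ'))
    (h3 : (nts ℓ').map key = (nts ℓ).map key) :
    ∃ w ∈ G.language, ∀ p, (br w)[p]? =
      if stt ℓ p = true then (br (yl ℓ'))[p]? else (br (yl ℓ))[p]? := by
  obtain ⟨ℓ'', h4, h5⟩ := align ℓ (nts ℓ') h3
  refine ⟨yl ℓ'', val_lang h1 (by rw [h5]; exact h2) (rel_shp h4), ?_⟩
  intro p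
  have := splice_pt hg hg' h4 [] rfl (by intro c hc; rw [← h5]; exact hc) p
  simpa [yl, br_nil, stt] using this

theorem loc_unique {ℓ : List (Item G)} (h : Uq ℓ) {A : G.N} {s n s' n' : ℕ}
    (h1 : Loc ℓ A s n) (h2 : Loc ℓ A s' n') : s = s' ∧ n = n' := by
  obtain ⟨a, y, b, e1, h3, rfl, rfl⟩ := h1
  obtain ⟨a', y', b', e2, h4, rfl, rfl⟩ := h2
  rw [e1] at e2
  have hu := h a A y b e1 h3 y'
  rcases List.append_eq_append_iff.1 e2 with ⟨c, hc1, hc2⟩ | ⟨c, hc1, hc2⟩
  · rcases c with _ | ⟨x, c⟩
    · simp only [List.append_nil] at hc1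
      simp only [List.nil_append, List.cons.injEq, Sum.inl.injEq, Prod.mk.injEq, true_and] at hc2
      rw [hc1, hc2.1]
      exact ⟨rfl, rfl⟩
    · exfalso
      simp only [List.cons_append, List.cons.injEq] at hc2
      apply hu.2
      rw [hc2.2]
      simp
  · rcases c with _ | ⟨x, c⟩
    · simp only [List.append_nil] at hc1
      simp only [List.nil_append, List.cons.injEq, Sum.inl.injEq, Prod.mk.injEq, true_and] at hc2
      rw [hc1, hc2.1]
      exact ⟨rfl, rfl⟩
    · exfalso
      simp only [List.cons_append, List.cons.injEq] at hc2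
      apply hu.1
      rw [hc1, hc2.1]
      simp

open Classical in
/-- chosen location function -/
noncomputable def gfun (ℓ : List (Item G)) (A : G.N) : ℕ × ℕ :=
  if h : ∃ p : ℕ × ℕ, Loc ℓ A p.1 p.2 then h.choose else (0, 0)

theorem gfun_spec {ℓ : List (Item G)} (h : Uq ℓ) (A : G.N) (s n : ℕ) (h1 : Loc ℓ A s n) :
    gfun ℓ A = (s, n) := by
  have hex : ∃ p : ℕ × ℕ, Loc ℓ A p.1 p.2 := ⟨(s, n), h1⟩
  have := loc_unique h hex.choose_spec h1
  rw [gfun, dif_pos hex]
  exact Prod.ext this.1 this.2

theorem gfun_le (ℓ : List (Item G)) (A : G.N) :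
    (gfun ℓ A).1 ≤ (br (yl ℓ)).length ∧ (gfun ℓ A).2 ≤ (br (yl ℓ)).length := by
  unfold gfun
  split_ifs with h
  · obtain ⟨a, y, b, e, -, e1, e2⟩ := h.choose_spec
    rw [e1, e2]
    have : (br (yl ℓ)).length = (br (yl a)).length + ((br y).length + (br (yl b)).length) := by
      conv_lhs => rw [e]
      rw [yl_append, yl_cons, br_append, br_append, List.length_append, List.length_append]
      rfl
    omega
  · exact ⟨Nat.zero_le _, Nat.zero_le _⟩

theorem card_nts_le {ℓ : List (Item G)} (h : NE ℓ) : (nts ℓ).card ≤ (yl ℓ).length := by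
  induction ℓ with
  | nil => simp [nts]
  | cons x ℓ ih =>
    have hNE : NE ℓ := by
      intro c hc
      apply h
      rw [mem_nts] at hc ⊢
      exact List.mem_cons_of_mem _ hc
    rcases x with c | t
    · rw [nts_cons_inl, Multiset.card_cons, yl_cons, List.length_append]
      have : c.2 ≠ [] := h c (by rw [nts_cons_inl]; simp)
      have : 0 < c.2.length := List.length_pos_iff.2 this
      have := ih hNE
      simp only [yld]
      omega
    · rw [nts_cons_inr, yl_cons, List.length_append]
      have := ih hNE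
      omega

end PoolH48.CR
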