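import Pool.Agent.H48.CR.Confl

namespace PoolH48.CR

/-- Tokens: `none` is the letter, `some (σ, c)` a separator with carry. -/
abbrev Tok := Option ((Bool × Bool) × Bool)

/-- right form of tokens -/
def toR : Tok → Sy
  | none => .a
  | some (σ, c) => .sp σ c

/-- left form of tokens -/
def toL : Tok → Sy
  | none => .ba
  | some (σ, c) => .bsp σ c

/-- Word of a configuration. -/
def wd (h : Sy) (U V : List Tok) : List Sy :=
  (U.map toL ++ [Sy.lend]).reverse ++ h :: (V.map toR ++ [Sy.rend])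

/-- Zipper dynamics. -/
inductive M : Sy → List Tok → List Tok → Sy → List Tok → List Tok → Prop
  | s1 (U V) : M .s U (none :: none :: none :: V) .s (none :: U) (none :: V)
  | s2 (U V σ c) : M .s U (none :: none :: some (σ, c) :: none :: V)
      (.q c) (some (σ, false) :: none :: U) (none :: V)
  | s3 (U V σ c) : M .s (none :: U) (none :: some (σ, c) :: none :: V)
      (.q (!c)) (some (σ, c) :: none :: U) (none :: V)
  | s4 (V x) : M .s [] (none :: some ((true, x), false) :: V)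
      .f [some ((true, x), false)] V
  | q1 (U V e) : M (.q e) U (none :: none :: none :: V) (.q e) (none :: U) (none :: V)
  | q2 (U V σ c) : M (.q false) U (none :: none :: some (σ, c) :: none :: V)
      (.q c) (some (σ, false) :: none :: U) (none :: V)
  | q2e (U σ c) : M (.q false) U [none, none, some (σ, c)]
      (.p none) (none :: U) [some (σ, false)]
  | q3 (U V σ c) : M (.q true) U (none :: some (σ, c) :: none :: V)
      (.q (!c)) (some (σ, c) :: U) (none :: V)
  | q3e (U σ c) : M (.q true) U [none, some (σ, c)]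
      (.p none) U [some (σ, false)]
  | p1 (U V z) : M (.p z) (none :: none :: none :: U) V (.p z) (none :: U) (none :: V)
  | p2 (U V z σ c) (h : z ≠ some true) :
      M (.p z) (none :: none :: some (σ, c) :: none :: U) V
        (.p (some c)) (none :: U) (some (σ, c) :: none :: V)
  | p3 (U V z σ c) (h : z ≠ some false) :
      M (.p z) (none :: some (σ, c) :: none :: U) V
        (.p (some !c)) (none :: U) (some (σ, false) :: V)
  | p4 (V z) (h : z ≠ some true) : M (.p z) [none, none] V .s [] (none :: V)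
  | p5 (V z) (h : z ≠ some false) : M (.p z) [none] V .s [] V
  | f1 (U V x) : M .f U (none :: some ((true, x), false) :: V)
      .f (some ((true, x), false) :: U) V
  | f2 (U V x) : M .f (some ((true, x), false) :: U) (none :: some ((false, x), false) :: V)
      .f U V

theorem rew_of {h U V u v r A B} (H : Rule u h v r) (hA : U.map toL ++ [Sy.lend] = u ++ A)
    (hB : V.map toR ++ [Sy.rend] = v ++ B) {w : List Sy} (hw : w = A.reverse ++ r ++ B) :
    Rew rules (wd h U V) w := by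
  rw [rew_iff]
  refine ⟨A.reverse, B, u, h, v, r, H, ?_, hw⟩
  rw [wd, hA, hB]
  simp

theorem M_rew {h U V h' U' V'} (H : M h U V h' U' V') : Rew rules (wd h U V) (wd h' U' V') := by
  cases H
  case s1 V =>
    exact rew_of .s1 (A := U.map toL ++ [Sy.lend]) (B := V.map toR ++ [Sy.rend])
                (by simp) (by simp [toR]) (by simp [wd, toR, toL])
  case s2 V σ c =>
    exact rew_of (.s2 σ c) (A := U.map toL ++ [Sy.lend])
                (B := V.map toR ++ [Sy.rend]) (by simp) (by simp [toR]) (by simp [wd, toR, toL])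
  case s3 U V σ c =>
    exact rew_of (.s3 σ c) (A := U.map toL ++ [Sy.lend])
                (B := V.map toR ++ [Sy.rend])
                (by simp [toL]) (by simp [toR]) (by simp [wd, toR, toL])
  case s4 x =>
    exact rew_of (.s4 x) (A := []) (B := V'.map toR ++ [Sy.rend])
                (by simp) (by simp [toR]) (by simp [wd, toL])
  case q1 V e =>
    exact rew_of (.q1 e) (A := U.map toL ++ [Sy.lend])
                (B := V.map toR ++ [Sy.rend]) (by simp) (by simp [toR]) (by simp [wd, toR, toL])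
  case q2 V σ c =>
    exact rew_of (.q2 σ c) (A := U.map toL ++ [Sy.lend])
                (B := V.map toR ++ [Sy.rend]) (by simp) (by simp [toR]) (by simp [wd, toR, toL])
  case q2e σ c =>
    exact rew_of (.q2e σ c) (A := U.map toL ++ [Sy.lend])
                (B := []) (by simp) (by simp [toR]) (by simp [wd, toR, toL])
  case q3 V σ c =>
    exact rew_of (.q3 σ c) (A := U.map toL ++ [Sy.lend])
                (B := V.map toR ++ [Sy.rend]) (by simp) (by simp [toR]) (by simp [wd, toR, toL])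
  case q3e σ c =>
    exact rew_of (.q3e σ c) (A := U.map toL ++ [Sy.lend])
                (B := []) (by simp) (by simp [toR]) (by simp [wd, toR])
  case p1 U z =>
    exact rew_of (.p1 z) (A := U.map toL ++ [Sy.lend])
                (B := V.map toR ++ [Sy.rend]) (by simp [toL]) (by simp) (by simp [wd, toR, toL])
  case p2 U z σ c h =>
    exact rew_of (.p2 z σ c h) (A := U.map toL ++ [Sy.lend])
                (B := V.map toR ++ [Sy.rend]) (by simp [toL]) (by simp) (by simp [wd, toR, toL])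
  case p3 U z σ c h =>
    exact rew_of (.p3 z σ c h) (A := U.map toL ++ [Sy.lend])
                (B := V.map toR ++ [Sy.rend]) (by simp [toL]) (by simp) (by simp [wd, toR, toL])
  case p4 z h =>
    exact rew_of (.p4 z h) (A := [])
                (B := V.map toR ++ [Sy.rend]) (by simp [toL]) (by simp) (by simp [wd, toR])
  case p5 z h =>
    exact rew_of (.p5 z h) (A := [])
                (B := V.map toR ++ [Sy.rend]) (by simp [toL]) (by simp) (by simp [wd])
  case f1 x =>
    exact rew_of (.f1 x) (A := U.map toL ++ [Sy.lend])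
                (B := V'.map toR ++ [Sy.rend]) (by simp) (by simp [toR]) (by simp [wd, toL])
  case f2 x =>
    exact rew_of (.f2 x) (A := U'.map toL ++ [Sy.lend])
                (B := V'.map toR ++ [Sy.rend]) (by simp [toL]) (by simp [toR]) (by simp [wd])

theorem split_unique {x x' y y' : List Sy} {h h' : Sy} (hx : h ∉ x') (hy : h ∉ y')
    (e : x ++ h :: y = x' ++ h' :: y') : x = x' ∧ h = h' ∧ y = y' := by
  rcases List.append_eq_append_iff.1 e with ⟨c, hc1, hc2⟩ | ⟨c, hc1, hc2⟩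
  · rcases c with _ | ⟨z, c⟩
    · simp only [List.append_nil] at hc1
      simp only [List.nil_append, List.cons.injEq] at hc2
      exact ⟨hc1.symm, hc2.1, hc2.2⟩
    · simp only [List.cons_append, List.cons.injEq] at hc2
      exact absurd (by rw [hc1, hc2.1]; simp) hx
  · rcases c with _ | ⟨z, c⟩
    · simp only [List.append_nil] at hc1
      simp only [List.nil_append, List.cons.injEq] at hc2
      exact ⟨hc1, hc2.1.symm, hc2.2.symm⟩
    · simp only [List.cons_append, List.cons.injEq] at hc2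
      exact absurd (by rw [hc2.2]; simp) hy

theorem toL_isL (t : Tok) : isL (toL t) = true := by
  rcases t with _ | ⟨σ, c⟩ <;> rfl

theorem toR_isR (t : Tok) : isR (toR t) = true := by
  rcases t with _ | ⟨σ, c⟩ <;> rfl

theorem wd_split {x y : List Sy} {h h' : Sy} {U V : List Tok} (hh : isL h = false)
    (hh' : isR h = false) (e : x ++ h :: y = wd h' U V) :
    x = (U.map toL ++ [Sy.lend]).reverse ∧ h = h' ∧ y = V.map toR ++ [Sy.rend] := by
  refine split_unique ?_ ?_ e
  · intro hm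
    rw [List.mem_reverse, List.mem_append, List.mem_map, List.mem_singleton] at hm
    rcases hm with ⟨t, -, ht⟩ | ht
    · rw [← ht, toL_isL] at hh; cases hh
    · rw [ht] at hh; cases hh
  · intro hm
    rw [List.mem_append, List.mem_map, List.mem_singleton] at hm
    rcases hm with ⟨t, -, ht⟩ | ht
    · rw [← ht, toR_isR] at hh'; cases hh'
    · rw [ht] at hh'; cases hh'

theorem toR_cons {V : List Tok} {x : Sy} {B : List Sy} (e : V.map toR ++ [Sy.rend] = x :: B) :
    (x = .rend ∧ V = [] ∧ B = []) ∨ (x = .a ∧ ∃ V', V = none :: V' ∧ B = V'.map toR ++ [Sy.rend]) ∨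
    (∃ σ c V', x = .sp σ c ∧ V = some (σ, c) :: V' ∧ B = V'.map toR ++ [Sy.rend]) := by
  rcases V with _ | ⟨_ | ⟨σ, c⟩, V⟩
  · simp at e; exact Or.inl ⟨e.1.symm, rfl, e.2⟩
  · simp [toR] at e; exact Or.inr (Or.inl ⟨e.1.symm, V, rfl, e.2.symm⟩)
  · simp [toR] at e; exact Or.inr (Or.inr ⟨σ, c, V, e.1.symm, rfl, e.2.symm⟩)

theorem toL_cons {U : List Tok} {x : Sy} {A : List Sy} (e : U.map toL ++ [Sy.lend] = x :: A) :
    (x = .lend ∧ U = [] ∧ A = []) ∨ (x = .ba ∧ ∃ U', U = none :: U' ∧ A = U'.map toL ++ [Sy.lend]) ∨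
    (∃ σ c U', x = .bsp σ c ∧ U = some (σ, c) :: U' ∧ A = U'.map toL ++ [Sy.lend]) := by
  rcases U with _ | ⟨_ | ⟨σ, c⟩, U⟩
  · simp at e; exact Or.inl ⟨e.1.symm, rfl, e.2⟩
  · simp [toL] at e; exact Or.inr (Or.inl ⟨e.1.symm, U, rfl, e.2.symm⟩)
  · simp [toL] at e; exact Or.inr (Or.inr ⟨σ, c, U, e.1.symm, rfl, e.2.symm⟩)

theorem rpre (ts : List Tok) {V : List Tok} {B : List Sy}
    (e : V.map toR ++ [Sy.rend] = ts.map toR ++ B) :
    ∃ V', V = ts ++ V' ∧ V'.map toR ++ [Sy.rend] = B := by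
  induction ts generalizing V with
  | nil => exact ⟨V, rfl, e⟩
  | cons t ts ih =>
    rcases toR_cons e with ⟨h, -⟩ | ⟨h, V', h1, h2⟩ | ⟨σ, c, V', h, h1, h2⟩
    · have := toR_isR t
      rcases t with _ | ⟨σ, c⟩ <;> cases h
    · rcases t with _ | ⟨σ, c⟩
      · obtain ⟨V2, rfl, e2⟩ := ih h2.symm
        exact ⟨V2, by simp [h1], e2⟩
      · cases h
    · rcases t with _ | ⟨σ', c'⟩
      · cases h
      · cases h
        obtain ⟨V2, rfl, e2⟩ := ih h2.symm
        exact ⟨V2, by simp [h1], e2⟩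

theorem rpreE (ts : List Tok) {V : List Tok} {B : List Sy}
    (e : V.map toR ++ [Sy.rend] = ts.map toR ++ (Sy.rend :: B)) :
    V = ts ∧ B = [] := by
  obtain ⟨V', rfl, e2⟩ := rpre ts e
  rcases toR_cons e2 with ⟨-, h1, h2⟩ | ⟨h, -⟩ | ⟨σ, c, V', h, -⟩
  · exact ⟨by simp [h1], h2⟩
  · cases h
  · cases h

theorem lpre (ts : List Tok) {V : List Tok} {B : List Sy}
    (e : V.map toL ++ [Sy.lend] = ts.map toL ++ B) :
    ∃ V', V = ts ++ V' ∧ V'.map toL ++ [Sy.lend] = B := by
  induction ts generalizing V with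
  | nil => exact ⟨V, rfl, e⟩
  | cons t ts ih =>
    rcases toL_cons e with ⟨h, -⟩ | ⟨h, V', h1, h2⟩ | ⟨σ, c, V', h, h1, h2⟩
    · have := toL_isL t
      rcases t with _ | ⟨σ, c⟩ <;> cases h
    · rcases t with _ | ⟨σ, c⟩
      · obtain ⟨V2, rfl, e2⟩ := ih h2.symm
        exact ⟨V2, by simp [h1], e2⟩
      · cases h
    · rcases t with _ | ⟨σ', c'⟩
      · cases h
      · cases h
        obtain ⟨V2, rfl, e2⟩ := ih h2.symm
        exact ⟨V2, by simp [h1], e2⟩

theorem lpreE (ts : List Tok) {V : List Tok} {B : List Sy}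
    (e : V.map toL ++ [Sy.lend] = ts.map toL ++ (Sy.lend :: B)) :
    V = ts ∧ B = [] := by
  obtain ⟨V', rfl, e2⟩ := lpre ts e
  rcases toL_cons e2 with ⟨-, h1, h2⟩ | ⟨h, -⟩ | ⟨σ, c, V', h, -⟩
  · exact ⟨by simp [h1], h2⟩
  · cases h
  · cases h

theorem rew_inv {h U V y} (H : Rew rules (wd h U V) y) :
    (h = .f ∧ U = [] ∧ V = [] ∧ y = [Sy.Y]) ∨ ∃ h' U' V', M h U V h' U' V' ∧ y = wd h' U' V' := by
  rw [rew_iff] at H
  obtain ⟨A, B, u, h0, v, r, R, e, rfl⟩ := H
  have ht := rule_types R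
  have e' : (A ++ u.reverse) ++ h0 :: (v ++ B) = wd h U V := by
    rw [e]; simp
  obtain ⟨e1, rfl, e2⟩ := wd_split ht.2.2.1 ht.2.2.2 e'
  have e3 : U.map toL ++ [Sy.lend] = u ++ A.reverse := by
    have := congrArg List.reverse e1
    simpa using this.symm
  replace e2 := e2.symm
  obtain ⟨A, rfl⟩ : ∃ A', A = A'.reverse := ⟨A.reverse, by simp⟩
  rw [List.reverse_reverse] at e3
  clear e e' e1 ht
  cases R
  case s1 =>
    obtain ⟨V, rfl, f2⟩ := rpre [none, none, none] e2
    obtain ⟨U, rfl, f3⟩ := lpre [] e3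
    exact Or.inr ⟨_, _, _, .s1 _ _, by simp [wd, ← f2, ← f3, toL, toR]⟩
  case s2 σ c =>
    obtain ⟨V, rfl, f2⟩ := rpre [none, none, some (σ, c), none] e2
    obtain ⟨U, rfl, f3⟩ := lpre [] e3
    exact Or.inr ⟨_, _, _, .s2 _ _ _ _, by simp [wd, ← f2, ← f3, toL, toR]⟩
  case s3 σ c =>
    obtain ⟨V, rfl, f2⟩ := rpre [none, some (σ, c), none] e2
    obtain ⟨U, rfl, f3⟩ := lpre [none] e3
    exact Or.inr ⟨_, _, _, .s3 _ _ _ _, by simp [wd, ← f2, ← f3, toL, toR]⟩
  case s4 x =>
    obtain ⟨V, rfl, f2⟩ := rpre [none, some ((true, x), false)] e2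
    obtain ⟨rfl, rfl⟩ := lpreE [] e3
    exact Or.inr ⟨_, _, _, .s4 _ _, by simp [wd, ← f2, toL]⟩
  case q1 e =>
    obtain ⟨V, rfl, f2⟩ := rpre [none, none, none] e2
    obtain ⟨U, rfl, f3⟩ := lpre [] e3
    exact Or.inr ⟨_, _, _, .q1 _ _ _, by simp [wd, ← f2, ← f3, toL, toR]⟩
  case q2 σ c =>
    obtain ⟨V, rfl, f2⟩ := rpre [none, none, some (σ, c), none] e2
    obtain ⟨U, rfl, f3⟩ := lpre [] e3
    exact Or.inr ⟨_, _, _, .q2 _ _ _ _, by simp [wd, ← f2, ← f3, toL, toR]⟩
  case q2e σ c =>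
    obtain ⟨rfl, rfl⟩ := rpreE [none, none, some (σ, c)] e2
    obtain ⟨U, rfl, f3⟩ := lpre [] e3
    exact Or.inr ⟨_, _, _, .q2e _ _ _, by simp [wd, ← f3, toL, toR]⟩
  case q3 σ c =>
    obtain ⟨V, rfl, f2⟩ := rpre [none, some (σ, c), none] e2
    obtain ⟨U, rfl, f3⟩ := lpre [] e3
    exact Or.inr ⟨_, _, _, .q3 _ _ _ _, by simp [wd, ← f2, ← f3, toL, toR]⟩
  case q3e σ c =>
    obtain ⟨rfl, rfl⟩ := rpreE [none, some (σ, c)] e2
    obtain ⟨U, rfl, f3⟩ := lpre [] e3
    exact Or.inr ⟨_, _, _, .q3e _ _ _, by simp [wd, ← f3, toR]⟩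
  case p1 z =>
    obtain ⟨V, rfl, f2⟩ := rpre [] e2
    obtain ⟨U, rfl, f3⟩ := lpre [none, none, none] e3
    exact Or.inr ⟨_, _, _, .p1 _ _ _, by simp [wd, ← f2, ← f3, toL, toR]⟩
  case p2 z σ c hz =>
    obtain ⟨V, rfl, f2⟩ := rpre [] e2
    obtain ⟨U, rfl, f3⟩ := lpre [none, none, some (σ, c), none] e3
    exact Or.inr ⟨_, _, _, .p2 _ _ _ _ _ hz, by simp [wd, ← f2, ← f3, toL, toR]⟩
  case p3 z σ c hz =>
    obtain ⟨V, rfl, f2⟩ := rpre [] e2
    obtain ⟨U, rfl, f3⟩ := lpre [none, some (σ, c), none] e3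
    exact Or.inr ⟨_, _, _, .p3 _ _ _ _ _ hz, by simp [wd, ← f2, ← f3, toL, toR]⟩
  case p4 z hz =>
    obtain ⟨V, rfl, f2⟩ := rpre [] e2
    obtain ⟨rfl, rfl⟩ := lpreE [none, none] e3
    exact Or.inr ⟨_, _, _, .p4 _ _ hz, by simp [wd, ← f2, toR]⟩
  case p5 z hz =>
    obtain ⟨V, rfl, f2⟩ := rpre [] e2
    obtain ⟨rfl, rfl⟩ := lpreE [none] e3
    exact Or.inr ⟨_, _, _, .p5 _ _ hz, by simp [wd, ← f2]⟩
  case f1 x =>
    obtain ⟨V, rfl, f2⟩ := rpre [none, some ((true, x), false)] e2
    obtain ⟨U, rfl, f3⟩ := lpre [] e3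
    exact Or.inr ⟨_, _, _, .f1 _ _ _, by simp [wd, ← f2, ← f3, toL]⟩
  case f2 x =>
    obtain ⟨V, rfl, f2⟩ := rpre [none, some ((false, x), false)] e2
    obtain ⟨U, rfl, f3⟩ := lpre [some ((true, x), false)] e3
    exact Or.inr ⟨_, _, _, .f2 _ _ _, by simp [wd, ← f2, ← f3]⟩
  case f3 =>
    obtain ⟨rfl, rfl⟩ := rpreE [] e2
    obtain ⟨rfl, rfl⟩ := lpreE [] e3
    exact Or.inl ⟨rfl, rfl, rfl, by simp⟩

/-- Acceptance of a configuration. -/
inductive Acc : Sy → List Tok → List Tok → Prop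
  | fin : Acc .f [] []
  | step {h U V h' U' V'} : M h U V h' U' V' → Acc h' U' V' → Acc h U V

theorem acc_iff {h U V} : RewStar rules (wd h U V) [Sy.Y] ↔ Acc h U V := by
  constructor
  · intro H
    generalize hx : wd h U V = x at H
    induction H using Relation.ReflTransGen.head_induction_on generalizing h U V with
    | refl =>
      exfalso
      have := congrArg List.length hx
      simp [wd] at this
    | head h1 h2 ih =>
      subst hx
      rcases rew_inv h1 with ⟨rfl, rfl, rfl, -⟩ | ⟨h', U', V', hM, rfl⟩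
      · exact .fin
      · exact .step hM (ih rfl)
  · intro H
    induction H with
    | fin =>
      refine .single ?_
      exact rew_of .f3 (A := []) (B := []) (by simp) (by simp) (by simp)
    | step hM _ ih => exact .head (M_rew hM) ih

end PoolH48.CR
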